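import Pool.Agent.Helper70.OB.Final
import Pool.Agent.Helper32.OB.MASS
import Pool.Agent.Helper32.OB.SEQ
import Pool.Agent.Helper49.OB.RADI
import Pool.Agent.Helper5.OB.Mkc
import Pool.Agent.Helper51.OB.BAS
import Pool.Agent.Helper67.OB.Wder
import Pool.Agent.Helper71.OB.Rolle
import Pool.Agent.Helper81.OB.Atom
import Pool.Agent.Helper16.OB.BND
import Pool.Agent.Helper50.OB.EN
import Pool.Agent.Helper30.OB.CNT1
import Pool.Agent.Helper82.OB.Cnts
import Pool.Agent.Helper85.OB.CNTT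
import Pool.Agent.Helper59.OB.CNT
import Pool.Agent.Helper93.OB.STR
import Pool.Agent.Helper39.OB.Rset
import Pool.Agent.Helper48.OB.FUB
import Pool.Agent.Helper58.OB.ROTD
import Pool.Agent.Helper19.OB.Rep
import Pool.Agent.Helper40.OB.REPF

open MeasureTheory Set Metric Filter
open scoped ENNReal Topology
open Pool.Agent.Results.MP_91ee6f_gt

namespace Pool.Agent.Helper70.OB

theorem fMASS (hO : OMI) : MASS := Pool.Agent.Helper32.OB.mass hO
theorem fRADI : RADI := Pool.Agent.Helper70.OB.radi_thm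
theorem fMKC (hO : OMI) (hC : CHN) : MKC := Pool.Agent.Helper5.OB.mkc hO hC
theorem fBAS : BAS := Pool.Agent.Helper51.OB.bas
theorem fWDER (hO : OMI) : WDER := Pool.Agent.Helper67.OB.wder hO fBAS
theorem fACC (hO : OMI) : ACC := Pool.Agent.Helper71.OB.acc fBAS (fWDER hO)
theorem fATOM (hO : OMI) : ATOM := Pool.Agent.Helper81.OB.atom fBAS (fACC hO)
theorem fBND : BND := Pool.Agent.Helper16.OB.bnd
theorem fEN : EN := Pool.Agent.Helper50.OB.en fBAS fBND
theorem fROLLE : ROLLE := Pool.Agent.Helper71.OB.rolle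
theorem fCNT1 (hO : OMI) : CNT1 := Pool.Agent.Helper30.OB.cnt1 fBAS (fWDER hO) fROLLE
theorem fCNTS (hO : OMI) : CNTS := Pool.Agent.Helper82.OB.ob_cnts fBAS (fWDER hO) fROLLE
theorem fCNTT (hO : OMI) : CNTT := Pool.Agent.Helper85.OB.cntt fBAS (fWDER hO)
theorem fCNT (hO : OMI) : CNT := Pool.Agent.Helper59.OB.cnt (fCNT1 hO) (fCNTS hO) (fCNTT hO)
theorem fSTR (hO : OMI) : STR := Pool.Agent.Helper93.OB.str fBAS (fACC hO) (fATOM hO) fEN (fCNT hO)
theorem fSEQ : SEQ := Pool.Agent.Helper32.OB.seq_proof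
theorem fRSET : RSET := Pool.Agent.Helper39.OB.rset
theorem fFUB (hO : OMI) (hC : CHN) : FUB := Pool.Agent.Helper48.OB.fub hC (fMKC hO hC)
theorem fROTD : ROTD := Pool.Agent.Helper58.OB.rotd
theorem fREP : REP := Pool.Agent.Helper19.OB.rep fROTD
theorem fREPF : REPF := Pool.Agent.Helper40.OB.repf fROTD

/-- The theorem in odd dimensions `≥ 5`. -/
theorem odd_balls (hO : OMI) (hC : CHN) (n : ℕ) (hn : Odd n) (h5 : 5 ≤ n) :
    ∃ L : ℝ, 0 < L ∧ ∀ R : ℝ, 0 < R → ∃ (w : Measure (En n)) (D : ℝ),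
      IsTheMaximising (cBall n R) w ∧ MaxDiversity (cBall n R) D ∧
      (FiniteSpheres n R w ∨ ∃ b : ℝ, 0 ≤ b ∧ b < R ∧ BallAndSpheres n R b
          ((n.factorial : ℝ) * (volume : Measure (En n)).real (ball 0 1) * D)⁻¹ w) ∧
      (L < R → ∃ b : ℝ, R - L ≤ b ∧ b < R ∧ BallAndSpheres n R b
          ((n.factorial : ℝ) * (volume : Measure (En n)).real (ball 0 1) * D)⁻¹ w) :=
  odd_balls_of (fMKC hO hC) (fSTR hO) fSEQ fRSET (fFUB hO hC) fREP fREPF n hn h5

end Pool.Agent.Helper70.OB
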