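import Pool.Agent.Helper70.OB.FinalS
import Pool.Agent.Helper96.PL.Edge
import Pool.Agent.Helper39.OB.Rset

open MeasureTheory Set Metric Filter
open scoped ENNReal Topology
open Pool.Agent.Results.MP_91ee6f_gt
open Pool.Agent.Helper70.MB (KT)

namespace Pool.Agent.Helper70.OB

/-- The boundary sphere is isolated in the support. -/
theorem boundary_isolated (n : ℕ) (hn : 2 ≤ n) (R : ℝ) (hR : 0 < R) {w : Measure (En n)}
    (hw : IsTheMaximising (cBall n R) w) :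
    ∃ δ : ℝ, 0 < δ ∧ ∀ x ∈ w.support, ‖x‖ ≤ R - δ ∨ ‖x‖ = R := by
  obtain ⟨c, τ, -, hsupp, hrot, hkt, -, hbd⟩ := ball_data n hn R hR hw
  have hnt : Nontrivial (En n) := by
    have : Nonempty (Fin n) := ⟨⟨0, by omega⟩⟩
    infer_instance
  obtain ⟨e, he⟩ : ∃ e : En n, ‖e‖ = 1 := by
    obtain ⟨x, hx⟩ : (sphere (0 : En n) 1).Nonempty := NormedSpace.sphere_nonempty.2 zero_le_one
    exact ⟨x, mem_sphere_zero_iff_norm.1 hx⟩
  obtain ⟨S, hS⟩ : ∃ S : Set ℝ, S = {r : ℝ | 0 ≤ r ∧ r • e ∈ τ.support} := ⟨_, rfl⟩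
  haveI := hkt.fin
  obtain ⟨-, hSR, hSs, -, -⟩ := Pool.Agent.Helper39.OB.rset n (by omega) τ R hR hkt.fin hrot
    hkt.compl e he S hS
  have hRe : R • e ∈ τ.support := by
    apply hbd
    rw [mem_sphere_zero_iff_norm, norm_smul, he, mul_one, Real.norm_eq_abs, abs_of_pos hR]
  have hτ0 : τ ≠ 0 := by
    rintro h0
    rw [h0, Measure.mem_support_iff_forall] at hRe
    have := hRe univ Filter.univ_mem
    simp at this
  obtain ⟨δ, hδ, -, hδR⟩ := Pool.Agent.Helper96.PL.edge n hn τ R hR hkt.fin hrot hτ0 hkt.compl e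
    he (hkt.eq _ hRe)
  refine ⟨δ, hδ, fun x hx => ?_⟩
  rw [← hsupp, hSs, mem_setOf_eq] at hx
  by_contra hcon
  push Not at hcon
  have hxR : ‖x‖ ≤ R := (hSR hx).2
  have h1 := hδR ‖x‖ (by linarith [hcon.1]) (lt_of_le_of_ne hxR hcon.2)
  rw [hS] at hx
  have h2 := hkt.eq _ hx.2
  linarith

end Pool.Agent.Helper70.OB
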