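import Pool.Agent.Helper70.OB.GoalsP

open MeasureTheory Set Metric Filter
open scoped ENNReal Topology
open Pool.Agent.Results.MP_91ee6f_gt
open Pool.Agent.Helper70.MM (om om_zero om_one om_rel om_pos om_hasDerivAt om_le om_measurable)
open Pool.Agent.Helper70.MB (KT)

namespace Pool.Agent.Helper70.OB

lemma om_nneg (j : ℕ) {s : ℝ} (hs : 0 ≤ s) : 0 ≤ om j s := by
  rcases hs.eq_or_lt with h | h
  · rw [← h]
    match j with
    | 0 =>
      rw [om_zero]
      exact (Real.exp_pos _).le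
    | 1 =>
      rw [om_one, div_zero]
    | j + 2 =>
      rw [Pool.Agent.Helper70.MM.om_succ_succ]
      norm_num
  · exact (om_pos j h).le

lemma gj_pos_of {n : ℕ} (τ : Measure (En n)) (e : En n) (j : ℕ) (r : ℝ) (hτ : τ ≠ 0)
    (hint : Integrable (fun y => om j (dist (r • e) y)) τ) (h0 : τ {r • e} = 0) :
    0 < gj τ e j r := by
  unfold gj
  rw [integral_pos_iff_support_of_nonneg (fun y => om_nneg j dist_nonneg) hint]
  have h1 : ({r • e} : Set (En n))ᶜ ⊆ Function.support (fun y => om j (dist (r • e) y)) := by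
    intro y hy
    rw [Function.mem_support]
    exact (om_pos j (dist_pos.2 (Ne.symm hy))).ne'
  refine lt_of_lt_of_le ?_ (measure_mono h1)
  rw [pos_iff_ne_zero]
  intro h2
  apply hτ
  rw [← Measure.measure_univ_eq_zero]
  have h3 : (univ : Set (En n)) = {r • e} ∪ ({r • e} : Set (En n))ᶜ := by simp
  rw [h3]
  exact measure_union_null h0 h2

/-- The support in the plane. -/
theorem pls (hRSET : RSET) (hCHG : CHG) (hGAPO : GAPO) (hPLG : PLG) (hEDGE : EDGE) : PLS := by
  intro τ R hR hrot hkt hzero hbd hmeet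
  haveI := hkt.fin
  obtain ⟨e, he⟩ : ∃ e : En 2, ‖e‖ = 1 := by
    obtain ⟨x, hx⟩ : (sphere (0 : En 2) 1).Nonempty := NormedSpace.sphere_nonempty.2 zero_le_one
    exact ⟨x, mem_sphere_zero_iff_norm.1 hx⟩
  have hnorm : ∀ r : ℝ, 0 ≤ r → ‖r • e‖ = r := by
    intro r hr
    rw [norm_smul, he, mul_one, Real.norm_eq_abs, abs_of_nonneg hr]
  obtain ⟨S, hS⟩ : ∃ S : Set ℝ, S = {r : ℝ | 0 ≤ r ∧ r • e ∈ τ.support} := ⟨_, rfl⟩
  obtain ⟨hScl, hSR, hSs, hSn, -⟩ := hRSET 2 (by norm_num) τ R hR hkt.fin hrot hkt.compl e he S hS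
  have hmem : ∀ r, 0 ≤ r → (r ∈ S ↔ r • e ∈ τ.support) := by
    intro r hr
    rw [hS]
    exact ⟨fun h => h.2, fun h => ⟨hr, h⟩⟩
  have hRS : R ∈ S := by
    rw [hmem R hR.le]
    exact hbd (by rw [mem_sphere_zero_iff_norm, hnorm R hR.le])
  have hτ0 : τ ≠ 0 := by
    rintro h0
    obtain ⟨x, hx, -⟩ := hmeet
    rw [h0, Measure.mem_support_iff_forall] at hx
    have := hx univ Filter.univ_mem
    simp at this
  obtain ⟨δ, hδ, hδR, hδ'⟩ := hEDGE 2 le_rfl τ R hR hkt.fin hrot hτ0 hkt.compl e he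
    (hkt.eq _ ((hmem R hR.le).1 hRS))
  have hlt : ∀ r ∈ S, r < R → r ≤ R - δ := by
    intro r hr hrR
    by_contra hcon
    rw [not_le] at hcon
    have h1 := hδ' r hcon hrR
    have h2 := hkt.eq _ ((hmem r (hSR hr).1).1 hr)
    linarith
  -- the functions
  obtain ⟨V, hV⟩ : ∃ V : ℝ → ℝ, V = fun r => gj τ e 0 r - 1 := ⟨_, rfl⟩
  have hVp : ∀ r, V r = potential τ (r • e) - 1 := by
    intro r
    rw [hV]
    unfold gj potential
    simp [om_zero]
  have hVS : ∀ r ∈ S, V r = 0 := by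
    intro r hr
    rw [hVp, hkt.eq _ ((hmem r (hSR hr).1).1 hr), sub_self]
  have hVn : ∀ r, 0 ≤ r → r ≤ R → 0 ≤ V r := by
    intro r hr hrR
    rw [hVp]
    have := hkt.ge (r • e) (by rw [mem_closedBall_zero_iff, hnorm r hr]; exact hrR)
    linarith
  obtain ⟨hint0, -, -, -, hpec, hder⟩ := hCHG 2 0 le_rfl (by norm_num) τ hkt.fin hrot e he
  have hderV : ∀ r, 0 < r → HasDerivAt V (pe τ e 0 r / r ^ 1) r := by
    intro r hr
    rw [hV]
    exact (hder r hr).sub_const 1
  have hVc : ∀ r, 0 < r → ContinuousAt V r := fun r hr => (hderV r hr).continuousAt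
  have hPc : ∀ r, 0 < r → ContinuousAt (pe τ e 0) r := fun r hr =>
    hpec.continuousAt (Ioi_mem_nhds hr)
  have hP0 : ∀ r ∈ S, 0 < r → r < R → pe τ e 0 r = 0 := by
    intro r hr hr0 hrR
    have h1 : IsLocalMin V r := by
      filter_upwards [Ioo_mem_nhds hr0 hrR] with t ht
      rw [hVS r hr]
      exact hVn t ht.1.le ht.2.le
    have h2 := h1.hasDerivAt_eq_zero (hderV r hr0)
    rw [div_eq_zero_iff] at h2
    rcases h2 with h2 | h2
    · exact h2
    · exact absurd h2 (pow_pos hr0 1).ne'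
  -- points are null
  have hpt : ∀ r, 0 < r → r ∉ S → τ {r • e} = 0 := by
    intro r hr hrS
    refine measure_mono_null ?_ (Measure.measure_compl_support (μ := τ))
    intro y hy
    rw [mem_singleton_iff] at hy
    rw [mem_compl_iff, hy]
    exact fun h => hrS ((hmem r hr.le).2 h)
  -- no gap
  have hgap : ∀ a b : ℝ, 0 ≤ a → a < b → b < R → b ∈ S → (∀ r, a < r → r < b → r ∉ S) →
      ((0 < a ∧ a ∈ S) ∨ (a = 0 ∧ τ (ball 0 b) = 0)) → False := by
    intro a b ha hab hbR hbS hno hor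
    have hnull : τ {y | a < ‖y‖ ∧ ‖y‖ < b} = 0 := by
      refine measure_mono_null ?_ (Measure.measure_compl_support (μ := τ))
      intro y hy hy2
      rw [hSs] at hy2
      exact hno _ hy.1 hy.2 hy2
    obtain ⟨-, d0, hd0, hd0l⟩ := hGAPO 2 le_rfl τ hkt.fin hrot e he a b ha hab hnull 0
    obtain ⟨hint1, d1, hd1, hd1l⟩ := hGAPO 2 le_rfl τ hkt.fin hrot e he a b ha hab hnull 1
    obtain ⟨hint2, -⟩ := hGAPO 2 le_rfl τ hkt.fin hrot e he a b ha hab hnull 2
    have hb0 : 0 < b := lt_of_le_of_lt ha hab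
    have heq : ∀ t ∈ Ioo a b, pe τ e 0 t = d0 t := by
      intro t ht
      have ht0 : 0 < t := lt_of_le_of_lt ha ht.1
      have h1 := (hder t ht0).unique (hd0 t ht).1
      rwa [div_left_inj' (pow_ne_zero _ ht0.ne')] at h1
    have hPd : ∀ t ∈ Ioo a b, HasDerivAt (pe τ e 0) (t ^ 1 * (V t + 1 - gj τ e 1 t)) t := by
      intro t ht
      have h1 := (hd0 t ht).2.congr_of_eventuallyEq
        (show pe τ e 0 =ᶠ[𝓝 t] d0 by
          filter_upwards [Ioo_mem_nhds ht.1 ht.2] with s hs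
          exact heq s hs)
      refine h1.congr_deriv ?_
      rw [hV]
      push_cast
      ring
    refine hPLG 1 a b V (pe τ e 0) (gj τ e 1) d1
      (fun t => t ^ 1 * (gj τ e 1 t + gj τ e 2 t)) ha hab ?_ ?_ ?_ ?_
    · intro t ht
      have ht0 : 0 < t := lt_of_le_of_lt ha ht.1
      have hp := hpt t ht0 (hno t ht.1 ht.2)
      refine ⟨hderV t ht0, hPd t ht, (hd1 t ht).1, ?_, ?_, ?_⟩
      · refine (hd1 t ht).2.congr_deriv ?_
        push_cast
        ring
      · have h1 := gj_pos_of τ e 1 t hτ0 (hint1 t ht) hp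
        have h2 := gj_pos_of τ e 2 t hτ0 (hint2 t ht) hp
        positivity
      · exact hVn t ht0.le (by linarith [ht.2])
    · have := (hVc b hb0).tendsto
      rw [hVS b hbS] at this
      exact this.mono_left nhdsWithin_le_nhds
    · have := (hPc b hb0).tendsto
      rw [hP0 b hbS hb0 hbR] at this
      exact this.mono_left nhdsWithin_le_nhds
    · rcases hor with ⟨ha0, haS⟩ | ⟨ha0, hball⟩
      · left
        constructor
        · have := (hVc a ha0).tendsto
          rw [hVS a haS] at this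
          exact this.mono_left nhdsWithin_le_nhds
        · have := (hPc a ha0).tendsto
          rw [hP0 a haS ha0 (by linarith)] at this
          exact this.mono_left nhdsWithin_le_nhds
      · right
        refine ⟨ha0, ?_, hd1l ha0 hball⟩
        refine (hd0l ha0 hball).congr' ?_
        rw [ha0] at heq
        filter_upwards [Ioo_mem_nhdsGT hb0] with t ht
        exact (heq t ht).symm
  -- the origin is not isolated
  have hiso : 0 ∈ S → ∀ ε > 0, ∃ r ∈ S, 0 < r ∧ r < ε := by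
    intro h0 ε hε
    by_contra hcon
    push Not at hcon
    have h1 : (0 : En 2) ∈ τ.support := by
      have := (hmem 0 le_rfl).1 h0
      rwa [zero_smul] at this
    rw [Measure.mem_support_iff_forall] at h1
    have h2 := h1 (ball 0 ε) (ball_mem_nhds _ hε)
    have h3 : τ (ball 0 ε) = 0 := by
      refine measure_mono_null ?_ (measure_union_null hzero
        (Measure.measure_compl_support (μ := τ)))
      intro y hy
      by_cases hy0 : y = 0
      · left
        exact hy0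
      · right
        intro hy2
        rw [hSs] at hy2
        have h4 := hcon ‖y‖ hy2 (norm_pos_iff.2 hy0)
        rw [mem_ball_zero_iff] at hy
        linarith
    rw [h3] at h2
    exact lt_irrefl _ h2
  -- the largest inner radius
  have hS'c : IsCompact (S ∩ Icc 0 (R - δ)) := isCompact_Icc.inter_left hScl
  have hS'n : (S ∩ Icc 0 (R - δ)).Nonempty := by
    obtain ⟨x, hx, hxR⟩ := hmeet
    rw [hSs] at hx
    rw [mem_ball_zero_iff] at hxR
    exact ⟨‖x‖, hx, norm_nonneg _, hlt _ hx hxR⟩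
  obtain ⟨b, ⟨hbS, hb0, hbδ⟩, hbmax⟩ := hS'c.exists_isGreatest hS'n
  have hbR : b < R := by linarith
  have hbmax' : ∀ r ∈ S, r < R → r ≤ b := fun r hr hrR =>
    hbmax ⟨hr, (hSR hr).1, hlt r hr hrR⟩
  have hbpos : 0 < b := by
    rcases hb0.eq_or_lt with h | h
    · rw [← h] at hbS
      obtain ⟨r, hr, hr0, hrR⟩ := hiso hbS R hR
      have := hbmax' r hr hrR
      linarith
    · exact h
  have hsub : Icc 0 b ⊆ S := by
    intro c hc
    by_contra hcS
    have hcb : c < b := lt_of_le_of_ne hc.2 fun h => hcS (h ▸ hbS)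
    obtain ⟨r₂, ⟨hr₂S, hr₂c, hr₂b⟩, hr₂m⟩ := (isCompact_Icc.inter_left hScl :
      IsCompact (S ∩ Icc c b)).exists_isLeast ⟨b, hbS, hcb.le, le_rfl⟩
    have hr₂c' : c < r₂ := lt_of_le_of_ne hr₂c fun h => hcS (h ▸ hr₂S)
    have hno2 : ∀ r, c ≤ r → r < r₂ → r ∉ S := by
      intro r hr1 hr2 hrS
      have := hr₂m ⟨hrS, hr1, by linarith⟩
      linarith
    rcases (S ∩ Icc 0 c).eq_empty_or_nonempty with hemp | hne
    · have hno3 : ∀ r, 0 ≤ r → r < r₂ → r ∉ S := by
        intro r hr1 hr2 hrS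
        rcases le_or_gt r c with h | h
        · exact (hemp ▸ (show r ∈ S ∩ Icc 0 c from ⟨hrS, hr1, h⟩) : r ∈ (∅ : Set ℝ))
        · exact hno2 r h.le hr2 hrS
      refine hgap 0 r₂ le_rfl (by linarith [hc.1]) (by linarith) hr₂S
        (fun r h1 h2 => hno3 r h1.le h2) (Or.inr ⟨rfl, ?_⟩)
      rw [← hSn 0 r₂ (by linarith [hc.1]) ?_]
      · simp
      · ext r
        simp only [mem_inter_iff, mem_Ico, mem_empty_iff_false, iff_false]
        rintro ⟨h1, h2, h3⟩
        exact hno3 r h2 h3 h1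
    · obtain ⟨r₁, ⟨hr₁S, hr₁0, hr₁c⟩, hr₁m⟩ := (isCompact_Icc.inter_left hScl :
        IsCompact (S ∩ Icc 0 c)).exists_isGreatest hne
      have hr₁c' : r₁ < c := lt_of_le_of_ne hr₁c fun h => hcS (h ▸ hr₁S)
      have hno3 : ∀ r, r₁ < r → r < r₂ → r ∉ S := by
        intro r hr1 hr2 hrS
        rcases le_or_gt r c with h | h
        · have := hr₁m ⟨hrS, by linarith, h⟩
          linarith
        · exact hno2 r h.le hr2 hrS
      have hr₁pos : 0 < r₁ := by
        rcases hr₁0.eq_or_lt with h | h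
        · exfalso
          rw [← h] at hr₁S hno3
          obtain ⟨r, hr, hr0, hrε⟩ := hiso hr₁S r₂ (by linarith)
          exact hno3 r hr0 hrε hr
        · exact h
      exact hgap r₁ r₂ hr₁0 (by linarith) (by linarith) hr₂S hno3 (Or.inl ⟨hr₁pos, hr₁S⟩)
  refine ⟨b, hbpos, hbR, ?_⟩
  rw [hSs]
  ext x
  rw [mem_setOf_eq, mem_union, mem_closedBall_zero_iff, mem_sphere_zero_iff_norm]
  constructor
  · intro hx
    rcases (hSR hx).2.eq_or_lt with h | h
    · exact Or.inr h
    · exact Or.inl (hbmax' _ hx h)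
  · rintro (hx | hx)
    · exact hsub ⟨norm_nonneg _, hx⟩
    · rw [hx]
      exact hRS

end Pool.Agent.Helper70.OB
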