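import Pool.Agent.Helper70.OB.Goals

/-!
# The radial equation for the regularised potentials

The point `x` is replaced by `(ε, x)` in one more dimension and the measure is put on `{0} × ℝⁿ`;
the distance becomes `√(|x-y|² + ε²) ≥ ε` and `fUD` can be used.
-/

open MeasureTheory Set Metric Filter
open scoped ENNReal Topology
open Pool.Agent.Results.MP_91ee6f_gt
open Pool.Agent.Helper70.MM (om om_zero om_one om_rel om_pos om_hasDerivAt om_le om_measurable
  U UD fUD)

namespace Pool.Agent.Helper70.OB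

/-- the point `(s, y)` -/
noncomputable def lft {n : ℕ} (s : ℝ) (y : En n) : En (n + 1) :=
  WithLp.toLp 2 (Fin.cons s (fun i => y i))

lemma lft_inner {n : ℕ} (s s' : ℝ) (y y' : En n) :
    inner ℝ (lft s y) (lft s' y') = s * s' + inner ℝ y y' := by
  rw [PiLp.inner_apply, PiLp.inner_apply, Fin.sum_univ_succ]
  simp [lft, mul_comm]

lemma lft_sub {n : ℕ} (s s' : ℝ) (y y' : En n) :
    lft s y - lft s' y' = lft (s - s') (y - y') := by
  ext i
  refine Fin.cases ?_ (fun i => ?_) i <;> simp [lft]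

lemma lft_add {n : ℕ} (s s' : ℝ) (y y' : En n) :
    lft s y + lft s' y' = lft (s + s') (y + y') := by
  ext i
  refine Fin.cases ?_ (fun i => ?_) i <;> simp [lft]

lemma lft_smul {n : ℕ} (t s : ℝ) (y : En n) :
    t • lft s y = lft (t * s) (t • y) := by
  ext i
  refine Fin.cases ?_ (fun i => ?_) i <;> simp [lft]

lemma lft_norm {n : ℕ} (s : ℝ) (y : En n) : ‖lft s y‖ = Real.sqrt (‖y‖ ^ 2 + s ^ 2) := by
  rw [norm_eq_sqrt_real_inner (lft s y), lft_inner, real_inner_self_eq_norm_sq]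
  congr 1
  ring

lemma lft_dist {n : ℕ} (s s' : ℝ) (y y' : En n) :
    dist (lft s y) (lft s' y') = Real.sqrt (dist y y' ^ 2 + (s - s') ^ 2) := by
  rw [dist_eq_norm, lft_sub, lft_norm, dist_eq_norm]

lemma lft_cont {n : ℕ} (s : ℝ) : Continuous (lft s : En n → En (n + 1)) := by
  refine (isometry_iff_dist_eq.2 fun x y => ?_).continuous
  rw [lft_dist, sub_self, zero_pow two_ne_zero, add_zero, Real.sqrt_sq dist_nonneg]

/-- the regularised distance -/
noncomputable def rho {n : ℕ} (ε : ℝ) (x y : En n) : ℝ := Real.sqrt (dist x y ^ 2 + ε ^ 2)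

lemma rho_pos {n : ℕ} {ε : ℝ} (hε : 0 < ε) (x y : En n) : 0 < rho ε x y := by
  unfold rho
  positivity

lemma rho_sq {n : ℕ} (ε : ℝ) (x y : En n) : rho ε x y ^ 2 = dist x y ^ 2 + ε ^ 2 := by
  unfold rho
  exact Real.sq_sqrt (by positivity)

/-- regularised potential -/
noncomputable def Ue {n : ℕ} (τ : Measure (En n)) (ε : ℝ) (j : ℕ) (x : En n) : ℝ :=
  ∫ y, om j (rho ε x y) ∂τ

lemma Ue_rad {n : ℕ} {τ : Measure (En n)} (hτ : Rot τ) (ε : ℝ) (j : ℕ) {x x' : En n}
    (h : ‖x‖ = ‖x'‖) : Ue τ ε j x = Ue τ ε j x' := by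
  have h1 := Submodule.reflection_sub h
  set g : En n ≃ₗᵢ[ℝ] En n := (Submodule.span ℝ {x - x'})ᗮ.reflection with hg
  unfold Ue
  have h2 : ∫ y, om j (rho ε x' y) ∂τ = ∫ y, om j (rho ε x' y) ∂(τ.map g) := by rw [hτ g]
  have h3 : ∫ y, om j (rho ε x' y) ∂(τ.map g) = ∫ y, om j (rho ε x' (g y)) ∂τ :=
    (g.toHomeomorph.measurableEmbedding).integral_map _
  rw [h2, h3]
  refine integral_congr_ae (Eventually.of_forall fun y => ?_)
  show om j (rho ε x y) = om j (rho ε x' (g y))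
  unfold rho
  rw [← h1, g.dist_map]

/-- derivative of the regularised potential in the direction `v` -/
noncomputable def U1 {n : ℕ} (τ : Measure (En n)) (ε : ℝ) (j : ℕ) (x v : En n) : ℝ :=
  -∫ y, om (j + 1) (rho ε x y) * inner ℝ (x - y) v ∂τ

/-- second derivative in the direction `v` -/
noncomputable def U2 {n : ℕ} (τ : Measure (En n)) (ε : ℝ) (j : ℕ) (x v : En n) : ℝ :=
  ∫ y, (om (j + 2) (rho ε x y) * (inner ℝ (x - y) v) ^ 2 - om (j + 1) (rho ε x y)) ∂τ

lemma lft_meas {n : ℕ} (τ : Measure (En n)) {f : En (n + 1) → ℝ} (hf : Measurable f) :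
    ∫ z, f z ∂(τ.map (lft 0)) = ∫ y, f (lft 0 y) ∂τ :=
  integral_map (lft_cont 0).measurable.aemeasurable hf.aestronglyMeasurable

lemma lft_intg {n : ℕ} (τ : Measure (En n)) {f : En (n + 1) → ℝ} (hf : Measurable f)
    (h : Integrable f (τ.map (lft 0))) : Integrable (fun y => f (lft 0 y)) τ :=
  (integrable_map_measure hf.aestronglyMeasurable (lft_cont 0).measurable.aemeasurable).1 h

lemma m1 {m : ℕ} (j : ℕ) (x : En m) : Measurable (fun y : En m => om j (dist x y)) :=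
  (om_measurable j).comp (by fun_prop)

lemma m2 {m : ℕ} (j i : ℕ) (x v : En m) :
    Measurable (fun y : En m => om j (dist x y) * (inner ℝ (x - y) v) ^ i) :=
  (m1 j x).mul (by fun_prop)

lemma m3 {m : ℕ} (j : ℕ) (x v : En m) :
    Measurable (fun y : En m => om j (dist x y) * (inner ℝ (x - y) v)) :=
  (m1 j x).mul (by fun_prop)

lemma reg_ud {n : ℕ} (τ : Measure (En n)) [IsFiniteMeasure τ] {ε : ℝ} (hε : 0 < ε) (j : ℕ)
    (x : En n) {v : En n} (hv : ‖v‖ = 1) :
    Integrable (fun y => om j (rho ε x y)) τ ∧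
    Integrable (fun y => om (j + 1) (rho ε x y)) τ ∧
    Integrable (fun y => om (j + 2) (rho ε x y) * (inner ℝ (x - y) v) ^ 2) τ ∧
    (∀ t : ℝ, |t| < ε / 2 →
      HasDerivAt (fun t : ℝ => Ue τ ε j (x + t • v)) (U1 τ ε j (x + t • v) v) t) ∧
    HasDerivAt (fun t : ℝ => U1 τ ε j (x + t • v) v) (U2 τ ε j x v) 0 := by
  haveI : IsFiniteMeasure (τ.map (lft 0)) := inferInstance
  have hv' : ‖lft 0 v‖ = 1 := by
    rw [lft_norm, hv]
    norm_num
  have hd : ∀ x y : En n, dist (lft ε x) (lft 0 y) = rho ε x y := by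
    intro x y
    rw [lft_dist, sub_zero]
    rfl
  have hi : ∀ x y : En n, inner ℝ (lft ε x - lft 0 y) (lft 0 v) = inner ℝ (x - y) v := by
    intro x y
    rw [lft_sub, lft_inner]
    ring
  have hx : ∀ t : ℝ, lft ε x + t • lft 0 v = lft ε (x + t • v) := by
    intro t
    rw [lft_smul, lft_add, mul_zero, add_zero]
  obtain ⟨h1, h2, h3, h4, h5⟩ := fUD (n + 1) j (τ.map (lft 0)) inferInstance (lft ε x) (lft 0 v) ε
    hε hv' (by
      rw [ae_map_iff (lft_cont 0).measurable.aemeasurable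
        (measurableSet_le measurable_const (by fun_prop))]
      refine Eventually.of_forall fun y => ?_
      rw [hd]
      unfold rho
      exact Real.le_sqrt_of_sq_le (by nlinarith [sq_nonneg (dist x y)]))
  have e0 : ∀ x : En n, U (τ.map (lft 0)) j (lft ε x) = Ue τ ε j x := by
    intro x
    unfold U Ue
    rw [lft_meas τ (m1 j _)]
    simp only [hd]
  have e1 : ∀ x : En n, (-∫ z, om (j + 1) (dist (lft ε x) z) *
      inner ℝ (lft ε x - z) (lft 0 v) ∂(τ.map (lft 0))) = U1 τ ε j x v := by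
    intro x
    unfold U1
    rw [lft_meas τ (m3 (j + 1) _ _)]
    simp only [hd, hi]
  have e2 : (∫ z, (om (j + 2) (dist (lft ε x) z) * (inner ℝ (lft ε x - z) (lft 0 v)) ^ 2 -
      om (j + 1) (dist (lft ε x) z)) ∂(τ.map (lft 0))) = U2 τ ε j x v := by
    unfold U2
    have hm : Measurable (fun z : En (n + 1) => om (j + 2) (dist (lft ε x) z) *
        (inner ℝ (lft ε x - z) (lft 0 v)) ^ 2 - om (j + 1) (dist (lft ε x) z)) :=
      (m2 (j + 2) 2 _ _).sub (m1 (j + 1) _)
    rw [lft_meas τ hm]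
    simp only [hd, hi]
  refine ⟨?_, ?_, ?_, ?_, ?_⟩
  · have h := lft_intg τ (m1 j _) h1
    simpa only [hd] using h
  · have h := lft_intg τ (m1 (j + 1) _) h2
    simpa only [hd] using h
  · have h := lft_intg τ (m2 (j + 2) 2 _ _) h3
    simpa only [hd, hi] using h
  · intro t ht
    have h := h4 t ht
    simp only [hx] at h
    rw [e1] at h
    refine h.congr_of_eventuallyEq (Eventually.of_forall fun t => ?_)
    exact (e0 _).symm
  · simp only [hx] at h5
    rw [e2] at h5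
    refine h5.congr_of_eventuallyEq (Eventually.of_forall fun t => ?_)
    exact (e1 _).symm

/-- derivative of `gr` -/
noncomputable def q1 {n : ℕ} (τ : Measure (En n)) (e : En n) (ε : ℝ) (j : ℕ) (r : ℝ) : ℝ :=
  U1 τ ε j (r • e) e

lemma reg_d1 {n : ℕ} (τ : Measure (En n)) [IsFiniteMeasure τ] {e : En n} (he : ‖e‖ = 1)
    {ε : ℝ} (hε : 0 < ε) (j : ℕ) (r : ℝ) : HasDerivAt (gr τ e ε j) (q1 τ e ε j r) r := by
  obtain ⟨_, _, _, h4, _⟩ := reg_ud τ hε j (r • e) he
  have h5 := h4 0 (by rw [abs_zero]; linarith)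
  have h6 : (fun t : ℝ => Ue τ ε j (r • e + t • e)) = fun t : ℝ => gr τ e ε j (r + t) := by
    funext t
    unfold Ue gr rho
    rw [add_smul]
  rw [h6] at h5
  have h7 : U1 τ ε j (r • e + (0 : ℝ) • e) e = q1 τ e ε j r := by
    unfold q1
    rw [zero_smul, add_zero]
  rw [h7] at h5
  have h8 : HasDerivAt (fun t : ℝ => gr τ e ε j (r + (t - r))) (q1 τ e ε j r) r :=
    HasDerivAt.comp_sub_const (f := fun t : ℝ => gr τ e ε j (r + t)) r r
      (by rw [sub_self]; exact h5)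
  refine h8.congr_of_eventuallyEq (Eventually.of_forall fun t => ?_)
  show gr τ e ε j t = gr τ e ε j (r + (t - r))
  rw [add_sub_cancel]

lemma reg_d2 {n : ℕ} (τ : Measure (En n)) [IsFiniteMeasure τ] {e : En n} (he : ‖e‖ = 1)
    {ε : ℝ} (hε : 0 < ε) (j : ℕ) (r : ℝ) :
    HasDerivAt (q1 τ e ε j) (U2 τ ε j (r • e) e) r := by
  obtain ⟨_, _, _, _, h5⟩ := reg_ud τ hε j (r • e) he
  have h6 : (fun t : ℝ => U1 τ ε j (r • e + t • e) e) = fun t : ℝ => q1 τ e ε j (r + t) := by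
    funext t
    unfold q1
    rw [add_smul]
  rw [h6] at h5
  have h8 : HasDerivAt (fun t : ℝ => q1 τ e ε j (r + (t - r))) (U2 τ ε j (r • e) e) r :=
    HasDerivAt.comp_sub_const (f := fun t : ℝ => q1 τ e ε j (r + t)) r r
      (by rw [sub_self]; exact h5)
  refine h8.congr_of_eventuallyEq (Eventually.of_forall fun t => ?_)
  show q1 τ e ε j t = q1 τ e ε j (r + (t - r))
  rw [add_sub_cancel]

/-- second derivative in an orthogonal direction -/
lemma reg_orth {n : ℕ} (τ : Measure (En n)) [IsFiniteMeasure τ] (hτ : Rot τ) {e : En n}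
    (he : ‖e‖ = 1) {ε : ℝ} (hε : 0 < ε) (j : ℕ) {r : ℝ} (hr0 : 0 < r) {v : En n} (hv : ‖v‖ = 1)
    (hev : inner ℝ e v = 0) : U2 τ ε j (r • e) v = q1 τ e ε j r / r := by
  obtain ⟨_, _, _, h4, h5⟩ := reg_ud τ hε j (r • e) hv
  have hrad : ∀ t : ℝ, Ue τ ε j (r • e + t • v) = gr τ e ε j (Real.sqrt (r ^ 2 + t ^ 2)) := by
    intro t
    have hN : ‖r • e + t • v‖ ^ 2 = r ^ 2 + t ^ 2 := by
      rw [norm_add_sq_real, norm_smul, norm_smul, he, hv, real_inner_smul_left,
        real_inner_smul_right, hev]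
      simp
    have h1 : ‖r • e + t • v‖ = ‖Real.sqrt (r ^ 2 + t ^ 2) • e‖ := by
      rw [norm_smul, he, mul_one, Real.norm_eq_abs, abs_of_nonneg (Real.sqrt_nonneg _), ← hN,
        Real.sqrt_sq (norm_nonneg _)]
    rw [Ue_rad hτ ε j h1]
    rfl
  have hsq : ∀ t : ℝ, HasDerivAt (fun t : ℝ => Real.sqrt (r ^ 2 + t ^ 2))
      (t / Real.sqrt (r ^ 2 + t ^ 2)) t := by
    intro t
    have h1 : HasDerivAt (fun s : ℝ => r ^ 2 + s ^ 2) (2 * t) t := by
      have h := (hasDerivAt_pow 2 t).const_add (r ^ 2)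
      refine h.congr_deriv ?_
      norm_num
    have h2 := h1.sqrt (by positivity)
    refine h2.congr_deriv ?_
    rw [mul_div_mul_left _ _ two_ne_zero]
  have hsqc : Continuous fun t : ℝ => Real.sqrt (r ^ 2 + t ^ 2) := by fun_prop
  have hsq0 : Real.sqrt (r ^ 2 + (0 : ℝ) ^ 2) = r := by
    rw [zero_pow two_ne_zero, add_zero, Real.sqrt_sq hr0.le]
  have hsmall : ∀ᶠ t : ℝ in 𝓝 0, |t| < ε / 2 := by
    have h1 : Tendsto (fun t : ℝ => |t|) (𝓝 0) (𝓝 0) := by
      have h2 := continuous_abs.tendsto (0 : ℝ)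
      rwa [abs_zero] at h2
    exact h1.eventually (gt_mem_nhds (by linarith))
  have heq : (fun t : ℝ => U1 τ ε j (r • e + t • v) v) =ᶠ[𝓝 0]
      fun t : ℝ => t * (q1 τ e ε j (Real.sqrt (r ^ 2 + t ^ 2)) / Real.sqrt (r ^ 2 + t ^ 2)) := by
    filter_upwards [hsmall] with t ht2
    have h6 := h4 t ht2
    have h7 : (fun t : ℝ => Ue τ ε j (r • e + t • v)) =
        fun t : ℝ => gr τ e ε j (Real.sqrt (r ^ 2 + t ^ 2)) := funext hrad
    rw [h7] at h6
    have h8 := (reg_d1 τ he hε j (Real.sqrt (r ^ 2 + t ^ 2))).comp t (hsq t)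
    have h9 := h6.unique h8
    rw [h9]
    ring
  have hcont : ContinuousAt (fun t : ℝ => q1 τ e ε j (Real.sqrt (r ^ 2 + t ^ 2)) /
      Real.sqrt (r ^ 2 + t ^ 2)) 0 := by
    have h1 : ContinuousAt (q1 τ e ε j) (Real.sqrt (r ^ 2 + (0 : ℝ) ^ 2)) :=
      (reg_d2 τ he hε j _).continuousAt
    have h2 : ContinuousAt (fun t : ℝ => q1 τ e ε j (Real.sqrt (r ^ 2 + t ^ 2))) 0 :=
      ContinuousAt.comp (f := fun t : ℝ => Real.sqrt (r ^ 2 + t ^ 2)) h1 hsqc.continuousAt
    refine h2.div hsqc.continuousAt ?_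
    rw [hsq0]
    exact hr0.ne'
  have hder : HasDerivAt (fun t : ℝ => t * (q1 τ e ε j (Real.sqrt (r ^ 2 + t ^ 2)) /
      Real.sqrt (r ^ 2 + t ^ 2))) (q1 τ e ε j r / r) 0 := by
    rw [hasDerivAt_iff_tendsto_slope]
    have h1 : Tendsto (fun t : ℝ => q1 τ e ε j (Real.sqrt (r ^ 2 + t ^ 2)) /
        Real.sqrt (r ^ 2 + t ^ 2)) (𝓝[≠] 0) (𝓝 (q1 τ e ε j r / r)) := by
      have h2 := hcont.tendsto
      rw [hsq0] at h2
      exact h2.mono_left nhdsWithin_le_nhds
    refine h1.congr' ?_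
    filter_upwards [self_mem_nhdsWithin] with t ht
    have ht' : t ≠ 0 := ht
    rw [slope_def_field, zero_mul, sub_zero, sub_zero, mul_comm, mul_div_assoc, div_self ht',
      mul_one]
  exact h5.unique (hder.congr_of_eventuallyEq heq)

lemma reg_sum {n : ℕ} (hn : 2 ≤ n) (τ : Measure (En n)) [IsFiniteMeasure τ] (hτ : Rot τ)
    {e : En n} (he : ‖e‖ = 1) {ε : ℝ} (hε : 0 < ε) (j : ℕ) {r : ℝ} (hr : 0 < r) :
    U2 τ ε j (r • e) e + ((n : ℝ) - 1) * (q1 τ e ε j r / r) =
      gr τ e ε j r - ((n : ℝ) - 1 - 2 * j) * gr τ e ε (j + 1) r -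
        ε ^ 2 * gr τ e ε (j + 2) r := by
  have hcard : Module.finrank ℝ (En n) = Fintype.card (Fin n) := by simp
  set i0 : Fin n := ⟨0, by omega⟩ with hi0
  have hv : Orthonormal ℝ (({i0} : Set (Fin n)).domRestrict (fun _ : Fin n => e)) := by
    constructor
    · intro i
      exact he
    · rintro ⟨x, hx⟩ ⟨y, hy⟩ hne
      exact absurd (Subtype.ext (hx.trans hy.symm)) hne
  obtain ⟨B, hB⟩ := hv.exists_orthonormalBasis_extension_of_card_eq hcard
  have hBe : B i0 = e := hB i0 (mem_singleton _)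
  have hnorm : ∀ i, ‖B i‖ = 1 := fun i => B.orthonormal.1 i
  obtain ⟨hint0, hint1, _, _, _⟩ := reg_ud τ hε j (r • e) he
  obtain ⟨_, hint2, _, _, _⟩ := reg_ud τ hε (j + 1) (r • e) he
  have hintB : ∀ i, Integrable (fun y => om (j + 2) (rho ε (r • e) y) *
      (inner ℝ (r • e - y) (B i)) ^ 2 - om (j + 1) (rho ε (r • e) y)) τ := by
    intro i
    obtain ⟨_, h1, h2, _, _⟩ := reg_ud τ hε j (r • e) (hnorm i)
    exact h2.sub h1
  have hsum : ∑ i, U2 τ ε j (r • e) (B i) =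
      gr τ e ε j r - ((n : ℝ) - 1 - 2 * j) * gr τ e ε (j + 1) r -
        ε ^ 2 * gr τ e ε (j + 2) r := by
    unfold U2
    rw [← integral_finsetSum _ (fun i _ => hintB i)]
    have hg : ∀ i : ℕ, gr τ e ε i r = ∫ y, om i (rho ε (r • e) y) ∂τ := fun i => rfl
    have hs1 : Integrable (fun y => om j (rho ε (r • e) y) -
        ((n : ℝ) - 1 - 2 * j) * om (j + 1) (rho ε (r • e) y)) τ := hint0.sub (hint1.const_mul _)
    have hs2 : Integrable (fun y => ε ^ 2 * om (j + 2) (rho ε (r • e) y)) τ :=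
      hint2.const_mul _
    rw [hg, hg, hg, ← integral_const_mul, ← integral_const_mul,
      ← integral_sub hint0 (hint1.const_mul _), ← integral_sub hs1 hs2]
    refine integral_congr_ae (Eventually.of_forall fun y => ?_)
    have hd : 0 < rho ε (r • e) y := rho_pos hε _ _
    show ∑ i, (om (j + 2) (rho ε (r • e) y) * (inner ℝ (r • e - y) (B i)) ^ 2 -
      om (j + 1) (rho ε (r • e) y)) = _
    rw [Finset.sum_sub_distrib, ← Finset.mul_sum]
    have h1 : ∑ i, (inner ℝ (r • e - y) (B i)) ^ 2 = dist (r • e) y ^ 2 := by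
      have h2 := B.sum_sq_norm_inner_left (r • e - y)
      rw [dist_eq_norm, ← h2]
      refine Finset.sum_congr rfl fun i _ => ?_
      rw [Real.norm_eq_abs, sq_abs]
    rw [h1, Finset.sum_const, Finset.card_univ, Fintype.card_fin, nsmul_eq_mul]
    have h3 := om_rel j hd
    rw [rho_sq] at h3
    show om (j + 2) (rho ε (r • e) y) * dist (r • e) y ^ 2 - n * om (j + 1) (rho ε (r • e) y) =
      om j (rho ε (r • e) y) - ((n : ℝ) - 1 - 2 * j) * om (j + 1) (rho ε (r • e) y) -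
        ε ^ 2 * om (j + 2) (rho ε (r • e) y)
    linarith
  have hother : ∀ i ∈ Finset.univ.erase i0, U2 τ ε j (r • e) (B i) = q1 τ e ε j r / r := by
    intro i hi
    have hne : i ≠ i0 := Finset.ne_of_mem_erase hi
    refine reg_orth τ hτ he hε j hr (hnorm i) ?_
    have h1 : inner ℝ (B i0) (B i) = 0 := B.orthonormal.2 hne.symm
    rw [hBe] at h1
    exact h1
  rw [← hsum, ← Finset.add_sum_erase _ _ (Finset.mem_univ i0), hBe,
    Finset.sum_congr rfl hother, Finset.sum_const, Finset.card_erase_of_mem (Finset.mem_univ i0),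
    Finset.card_univ, Fintype.card_fin, nsmul_eq_mul, Nat.cast_sub (by omega : 1 ≤ n),
    Nat.cast_one]

/-- Packet OB-REG. -/
theorem reg : REG := by
  intro n hn τ hfin hτ e he ε hε j
  have hcont : ∀ j, Continuous (gr τ e ε j) := fun j =>
    continuous_iff_continuousAt.2 fun r => (reg_d1 τ he hε j r).continuousAt
  refine ⟨hcont j, fun r hr => ?_⟩
  have hq1c : Continuous (q1 τ e ε j) :=
    continuous_iff_continuousAt.2 fun r => (reg_d2 τ he hε j r).continuousAt
  set D : ℝ → ℝ := fun u => u ^ (n - 1) * (gr τ e ε j u -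
        ((n : ℝ) - 1 - 2 * j) * gr τ e ε (j + 1) u - ε ^ 2 * gr τ e ε (j + 2) u) with hD
  have hDc : Continuous D := by
    rw [hD]
    have h0 := hcont j
    have h1 := hcont (j + 1)
    have h2 := hcont (j + 2)
    fun_prop
  have hder : ∀ u ∈ Ioo (0 : ℝ) r, HasDerivAt (fun u => u ^ (n - 1) * q1 τ e ε j u) (D u) u := by
    intro u hu
    have h1 := (hasDerivAt_pow (n - 1) u).mul (reg_d2 τ he hε j u)
    refine h1.congr_deriv ?_
    rw [hD]
    show _ = u ^ (n - 1) * (gr τ e ε j u -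
        ((n : ℝ) - 1 - 2 * j) * gr τ e ε (j + 1) u - ε ^ 2 * gr τ e ε (j + 2) u)
    rw [← reg_sum hn τ hτ he hε j hu.1]
    have hu0 := hu.1
    obtain ⟨m, rfl⟩ : ∃ m, n = m + 2 := ⟨n - 2, by omega⟩
    have h2 : m + 2 - 1 = m + 1 := by omega
    rw [h2, Nat.add_sub_cancel]
    push_cast
    field_simp
    ring
  have hcF : ContinuousOn (fun u => u ^ (n - 1) * q1 τ e ε j u) (Icc 0 r) := by
    have : Continuous (fun u => u ^ (n - 1) * q1 τ e ε j u) := by fun_prop
    exact this.continuousOn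
  have hint := intervalIntegral.integral_eq_sub_of_hasDerivAt_of_le hr.le hcF hder
    (hDc.intervalIntegrable _ _)
  have hz : (0 : ℝ) ^ (n - 1) = 0 := zero_pow (by omega)
  simp only [hz, zero_mul, sub_zero] at hint
  refine (reg_d1 τ he hε j r).congr_deriv ?_
  rw [hint]
  field_simp

end Pool.Agent.Helper70.OB
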