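import Pool.Agent.Helper70.OB.AllO
import Pool.Agent.Helper70.OB.Reg
import Pool.Agent.Helper70.OB.Isol
import Pool.Agent.Helper85.OB.CHN
import Pool.Agent.Helper83.OB.Omi
import Pool.Agent.Helper26.OB.Omg
import Pool.Agent.Helper42.OB.MASG
import Pool.Agent.Helper87.OB.Chg
import Pool.Agent.Helper17.OB.PLG
import Pool.Agent.Helper96.PL.Edge
import Pool.Agent.Helper39.OB.Kev
import Pool.Agent.Helper15.EV.EC1
import Pool.Agent.Helper12.EV.ECS
import Pool.Agent.Helper93.OB.EZK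
import Pool.Agent.Helper30.OB.ECT
import Pool.Agent.Helper56.EV.Ecnt
import Pool.Agent.Helper90.OB.EMK
import Pool.Agent.Helper82.OB.Blow
import Pool.Agent.Helper60.OB.Estr
import Pool.Agent.Helper59.OB.EINV
import Pool.Agent.Helper32.OB.GAPO
import Pool.Agent.Helper70.OB.Pls

open MeasureTheory Set Metric Filter
open scoped ENNReal Topology
open Pool.Agent.Results.MP_91ee6f_gt

namespace Pool.Agent.Helper70.OB

theorem fOMI : OMI := Pool.Agent.Helper83.OB.omi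
theorem fREG : REG := reg
theorem fCHN : CHN := Pool.Agent.Helper85.OB.chn fOMI (fMASS fOMI) fREG fRADI
theorem fOMG : OMG := Pool.Agent.Helper26.OB.omg
theorem fMASG : MASG := Pool.Agent.Helper42.OB.masg fOMG
theorem fCHG : CHG := Pool.Agent.Helper87.OB.chg fOMG fMASG fREG fRADI
theorem fPLG : PLG := Pool.Agent.Helper17.OB.plg
theorem fEDGE : EDGE := Pool.Agent.Helper96.PL.edge
theorem fKEV : KEV := Pool.Agent.Helper39.OB.kev
theorem fEC1 : EC1 := Pool.Agent.Helper15.EV.ec1 fROLLE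
theorem fECS : ECS := Pool.Agent.Helper12.EV.ECS_holds fROLLE
theorem fEZK : EZK := Pool.Agent.Helper93.OB.ezk
theorem fECT : ECT := Pool.Agent.Helper30.OB.ect fEZK
theorem fECNT : ECNT := Pool.Agent.Helper56.EV.ecnt fEC1 fECS fECT
theorem fEMK : EMK := Pool.Agent.Helper90.OB.emk fCHG
theorem fBLOW : BLOW := Pool.Agent.Helper82.OB.ob_blow
theorem fGAPO : GAPO := Pool.Agent.Helper32.OB.gapo
theorem fEINV : EINV := Pool.Agent.Helper59.OB.einv fCHG fGAPO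
theorem fPLS : PLS := pls fRSET fCHG fGAPO fPLG fEDGE
theorem fESTR : ESTR :=
  Pool.Agent.Helper60.OB.estr fRSET fEDGE fCHG fGAPO fKEV fEMK fEINV fBLOW fECNT

/-- Everything about balls. -/
theorem ball_structure (n : ℕ) (hn : 2 ≤ n) :
    ∃ Rc L : ℝ, (n : ℝ) - 1 ≤ Rc ∧ Rc ≤ 2 * n * Real.log 5 ∧ (n = 2 → Rc < 17 / 10) ∧
      sphEnergy n Rc = Real.exp (-Rc) ∧ Rc ≤ L ∧
      (∀ R : ℝ, 0 < R → (sphEnergy n R ≤ Real.exp (-R) ↔ R ≤ Rc) ∧
        ∃ (w : Measure (En n)) (D : ℝ), IsTheMaximising (cBall n R) w ∧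
          MaxDiversity (cBall n R) D ∧
          (R ≤ Rc → w = sphUnif n R ∧ w.support = sphere 0 R ∧ D = (sphEnergy n R)⁻¹) ∧
          (Rc < R → sphere 0 R ⊆ w.support ∧ (w.support ∩ ball 0 R).Nonempty) ∧
          (∃ δ : ℝ, 0 < δ ∧ ∀ x ∈ w.support, ‖x‖ ≤ R - δ ∨ ‖x‖ = R) ∧
          (n ≤ 3 → Rc < R → ∃ b : ℝ, 0 < b ∧ b < R ∧
            w.support = closedBall 0 b ∪ sphere 0 R) ∧
          (4 ≤ n → L < R → closedBall 0 (R - L) ⊆ w.support ∧ ¬ IsFinUnionShells w.support) ∧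
          (5 ≤ n → Odd n → FiniteSpheres n R w ∨ ∃ b : ℝ, 0 ≤ b ∧ b < R ∧
            BallAndSpheres n R b
              ((n.factorial : ℝ) * (volume : Measure (En n)).real (ball 0 1) * D)⁻¹ w) ∧
          (5 ≤ n → Odd n → L < R → ∃ b : ℝ, R - L ≤ b ∧ b < R ∧
            BallAndSpheres n R b
              ((n.factorial : ℝ) * (volume : Measure (En n)).real (ball 0 1) * D)⁻¹ w)) ∧
      (4 ≤ n → ∀ η : ℝ, 0 < η → ∃ ε : ℝ, 0 < ε ∧ ∀ R : ℝ, Rc < R → R < Rc + ε →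
        ∃ (s m : ℝ) (w : Measure (En n)), 0 < s ∧ s < η ∧ s < R ∧ 0 < m ∧ m < 1 ∧
          w = ENNReal.ofReal (1 - m) • sphUnif n R + ENNReal.ofReal m • sphUnif n s ∧
          IsTheMaximising (cBall n R) w ∧ w.support = sphere 0 R ∪ sphere 0 s) := by
  have hC := fCHN
  obtain ⟨Rc, L, h1, h2, h3, h4, h5, h6, h7⟩ := ball_structure_of (fMKC fOMI hC) (fSTR fOMI) fSEQ
    fRSET (fFUB fOMI hC) fREP fREPF fPLS fESTR n hn
  refine ⟨Rc, L, h1, h2, h3, h4, h5, fun R hR0 => ⟨(h6 R hR0).1, ?_⟩, h7⟩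
  obtain ⟨-, w, D, g1, g2, g3, g4, g5, g6, g7, g8⟩ := h6 R hR0
  exact ⟨w, D, g1, g2, g3, g4, boundary_isolated n hn R hR0 g1, g5, g6, g7, g8⟩

end Pool.Agent.Helper70.OB
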