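import Pool.Agent.Helper70.OB.Goals2

open MeasureTheory Set Metric Filter
open scoped ENNReal Topology
open Pool.Agent.Results.MP_91ee6f_gt
open Pool.Agent.Helper70.MB (KT kt_of_max)

namespace Pool.Agent.Helper70.OB

lemma support_ofReal_smul {n : ℕ} (μ : Measure (En n)) {a : ℝ} (ha : 0 < a) :
    (ENNReal.ofReal a • μ).support = μ.support := by
  ext x
  rw [Measure.mem_support_iff_forall, Measure.mem_support_iff_forall]
  refine forall₂_congr fun U _ => ?_
  rw [Measure.smul_apply, smul_eq_mul]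
  have h1 : ENNReal.ofReal a ≠ 0 := by simpa using ha
  rw [pos_iff_ne_zero, pos_iff_ne_zero, mul_ne_zero_iff]
  exact ⟨fun h => h.2, fun h => ⟨h1, h⟩⟩

lemma ballAndSpheres_smul {n : ℕ} {R b c a : ℝ} (ha : 0 < a) {w : Measure (En n)}
    (h : BallAndSpheres n R b c w) : BallAndSpheres n R b (a * c) (ENNReal.ofReal a • w) := by
  obtain ⟨r, m, h1, h2, h3, h4, h5, h6⟩ := h
  refine ⟨r, fun i => a * m i, h1, h2, h3, fun i => mul_pos ha (h4 i), ?_, ?_⟩
  · rw [h5, smul_add, ← mul_smul, ← ENNReal.ofReal_mul ha.le]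
    congr 1
    ext1 A hA
    rw [Measure.smul_apply, Measure.sum_apply _ hA, Measure.sum_apply _ hA, smul_eq_mul,
      ← ENNReal.tsum_mul_left]
    refine tsum_congr fun i => ?_
    rw [Measure.smul_apply, Measure.smul_apply, smul_eq_mul, smul_eq_mul, ← mul_assoc,
      ← ENNReal.ofReal_mul ha.le]
  · rw [support_ofReal_smul w ha, h6]

lemma finiteSpheres_smul {n : ℕ} {R a : ℝ} (ha : 0 < a) {w : Measure (En n)}
    (h : FiniteSpheres n R w) : FiniteSpheres n R (ENNReal.ofReal a • w) := by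
  obtain ⟨N, r, m, h1, h2, h3, h4, h5, h6⟩ := h
  refine ⟨N, r, fun i => a * m i, h1, h2, h3, fun i => mul_pos ha (h4 i), ?_, ?_⟩
  · rw [h5, Finset.smul_sum]
    refine Finset.sum_congr rfl fun i _ => ?_
    rw [← mul_smul, ← ENNReal.ofReal_mul ha.le]
  · rw [support_ofReal_smul w ha, h6]

lemma FiniteSpheres.isFin {n : ℕ} {R : ℝ} {w : Measure (En n)} (h : FiniteSpheres n R w) :
    IsFinUnionSpheres w.support := by
  obtain ⟨N, r, m, -, -, -, -, -, h6⟩ := h
  refine ⟨range r, finite_range r, ?_⟩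
  rw [h6, biUnion_range]

/-- The solid ball is large. -/
lemma le_of_closedBall_subset {n : ℕ} (hn : 1 ≤ n) {R b c ρ : ℝ} {w : Measure (En n)}
    (h : BallAndSpheres n R b c w) (hb : 0 ≤ b) (hρ : closedBall (0 : En n) ρ ⊆ w.support) :
    ρ ≤ b := by
  obtain ⟨r, m, h1, h2, h3, h4, h5, h6⟩ := h
  by_contra hcon
  rw [not_le] at hcon
  obtain ⟨i, hi⟩ := (h3.eventually (gt_mem_nhds hcon)).exists
  have hnt : Nontrivial (En n) := by
    have : Nonempty (Fin n) := ⟨⟨0, by omega⟩⟩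
    infer_instance
  have hlim : ∀ j, b < r j := fun j => lt_of_le_of_lt (h1.antitone.le_of_tendsto h3 (j + 1))
    (h1 (Nat.lt_succ_self j))
  have h7 : r (i + 1) < r i := h1 (Nat.lt_succ_self i)
  have hb1 := hlim (i + 1)
  obtain ⟨x, hx⟩ : (sphere (0 : En n) ((r (i + 1) + r i) / 2)).Nonempty :=
    NormedSpace.sphere_nonempty.2 (by linarith)
  rw [mem_sphere_zero_iff_norm] at hx
  have hx1 : x ∈ w.support := hρ (by rw [mem_closedBall_zero_iff, hx]; linarith)
  rw [h6] at hx1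
  rcases hx1 with hx2 | hx2
  · rw [mem_closedBall_zero_iff, hx] at hx2
    linarith
  · obtain ⟨j, hj⟩ := mem_iUnion.1 hx2
    rw [mem_sphere_zero_iff_norm, hx] at hj
    rcases Nat.lt_or_ge i j with hij | hij
    · have := h1.antitone (show i + 1 ≤ j from hij)
      linarith
    · have := h1.antitone hij
      linarith

/-- The theorem for a ball: finitely many spheres, or a solid ball and infinitely many spheres. -/
theorem ball_of (hMKC : MKC) (hSTR : STR) (hSEQ : SEQ) (hRSET : RSET) (hFUB : FUB) (hREP : REP)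
    (hREPF : REPF) (n k : ℕ) (hk : 3 ≤ k) (hnk : n + 1 = 2 * k) (R : ℝ) (hR : 0 < R) :
    ∃ (w : Measure (En n)) (D : ℝ), 0 < D ∧ IsTheMaximising (cBall n R) w ∧
      MaxDiversity (cBall n R) D ∧ (FiniteSpheres n R w ∨ ∃ b : ℝ, 0 ≤ b ∧ b < R ∧
        BallAndSpheres n R b
          ((n.factorial : ℝ) * (volume : Measure (En n)).real (ball 0 1) * D)⁻¹ w) := by
  have hn : 2 ≤ n := by omega
  obtain ⟨Rc, -, -, -, hball⟩ := MM.ballAll n hn
  obtain ⟨μ₀, hμ₀, huniq₀, hbd, -, hsing, -, -, -⟩ := hball R hR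
  obtain ⟨μ, c, hc, hmax, hdiv, huniq, hk1, hk2⟩ :=
    MM.fEXMAX n (closedBall (0 : En n) R) (isCompact_closedBall _ _)
      ⟨0, mem_closedBall_self hR.le⟩
  obtain rfl : μ₀ = μ := huniq μ₀ hμ₀
  have hkt := kt_of_max (isCompact_closedBall _ _) hc hmax hk1 hk2
  have hci : 0 < c⁻¹ := inv_pos.2 hc
  set τ : Measure (En n) := ENNReal.ofReal c⁻¹ • inEn μ₀ with hτ
  have hfin : IsFiniteMeasure τ := hkt.fin
  have hsupp : τ.support = (inEn μ₀).support := support_ofReal_smul _ hci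
  have hrot : Rot τ := by
    intro g
    rw [hτ, Measure.map_smul, MM.fROT n R hR μ₀ hmax g]
  have hcompl : τ (closedBall 0 R)ᶜ = 0 := hkt.compl
  have hzero : τ {0} = 0 := by
    haveI hno := Measure.nullSingletonClass_hausdorff (En n) one_pos
    have h1 := hsing {0} ⟨fun _ => {0}, by simp, fun i => by
      rw [measure_singleton]; exact ENNReal.zero_lt_top⟩
    have h2 : ({0} : Set (En n)) ∩ ball 0 R = {0} := by
      rw [inter_eq_left]
      intro x hx
      rw [mem_singleton_iff] at hx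
      rw [hx]
      exact mem_ball_self hR
    rw [h2] at h1
    rw [hτ, Measure.smul_apply, h1, smul_zero]
  have hnt : Nontrivial (En n) := by
    have : Nonempty (Fin n) := ⟨⟨0, by omega⟩⟩
    infer_instance
  obtain ⟨e, he⟩ : ∃ e : En n, ‖e‖ = 1 := by
    obtain ⟨x, hx⟩ : (sphere (0 : En n) 1).Nonempty := NormedSpace.sphere_nonempty.2 zero_le_one
    exact ⟨x, mem_sphere_zero_iff_norm.1 hx⟩
  have hchain := hMKC n k (by omega) hnk τ R hfin hrot hcompl hzero e he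
  obtain ⟨S, hS⟩ : ∃ S : Set ℝ, S = {r : ℝ | 0 ≤ r ∧ r • e ∈ τ.support} := ⟨_, rfl⟩
  obtain ⟨hScl, hSR, hSs, hSn, hSp⟩ := hRSET n (by omega) τ R hR hfin hrot hcompl e he S hS
  have hRS : R ∈ S := by
    rw [hS]
    refine ⟨hR.le, ?_⟩
    rw [hsupp]
    apply hbd
    rw [mem_sphere_zero_iff_norm, norm_smul, he, mul_one, Real.norm_eq_abs, abs_of_pos hR]
  have hnorm : ∀ r : ℝ, 0 < r → ‖r • e‖ = r := by
    intro r hr
    rw [norm_smul, he, mul_one, Real.norm_eq_abs, abs_of_pos hr]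
  have hV0 : ∀ r : ℝ, VV τ e 0 r = potential τ (r • e) - 1 := by
    intro r
    unfold VV gj cc potential
    simp [MM.om_zero]
  have hSV : ∀ r ∈ S, 0 < r → VV τ e 0 r = 0 := by
    intro r hr _
    rw [hS] at hr
    rw [hV0, hkt.eq _ hr.2, sub_self]
  have hVn : ∀ r, 0 < r → r ≤ R → 0 ≤ VV τ e 0 r := by
    intro r hr hrR
    rw [hV0]
    have := hkt.ge (r • e) (by rw [mem_closedBall_zero_iff, hnorm r hr]; exact hrR)
    linarith
  have hm : ∀ x y : ℝ, 0 < x → x ≤ y → S ∩ Ico x y = ∅ → mm τ x = mm τ y := by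
    intro x y _ hxy hxyS
    unfold mm
    rw [measureReal_def, measureReal_def, hSn x y hxy hxyS]
  have hfub := hFUB n k (by omega) hnk τ hfin hrot hzero hkt.eq e he
  have hn1 : (n : ℝ) = 2 * k - 1 := by
    have : (n : ℝ) + 1 = 2 * k := by exact_mod_cast hnk
    linarith
  have hn2 : 2 * k - 1 = n := by omega
  -- back from τ to w
  have hwτ : inEn μ₀ = ENNReal.ofReal c • τ := by
    rw [hτ, ← mul_smul, ← ENNReal.ofReal_mul hc.le, mul_inv_cancel₀ hc.ne', ENNReal.ofReal_one,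
      one_smul]
  refine ⟨inEn μ₀, c⁻¹, hci, ⟨μ₀, rfl, fun ν => ⟨huniq ν, fun h => h ▸ hmax⟩⟩, ?_, ?_⟩
  · intro ν hν q
    rw [huniq ν hν]
    exact hdiv q
  rcases hSTR k _ _ _ hchain S R hR hScl hSR hRS hSV hVn hm hfub with hfinS | hinf
  · left
    rw [hwτ]
    exact finiteSpheres_smul hc (hREPF n hn τ S R hfin hrot hR hRS hSR hfinS hSs hzero)
  · right
    obtain ⟨b, hb, hbR, hbS, hbf, hbm, hb3⟩ := hinf
    obtain ⟨hbacc, hblim⟩ := hb3 hk
    obtain ⟨r, hr1, hr2, hr3, hr4, hr5⟩ := hSEQ S b R hbR hRS (fun x hx => (hSR hx).2) hbf hbacc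
    rw [hn2, ← hn1] at hblim
    have hbm' : ∀ t : ℝ, 0 < t → t ≤ b → mm τ t = t ^ n / n := by
      intro t ht htb
      rw [hbm t ht htb, hn2, ← hn1]
    have hrep := hREP n hn τ S R b r hfin hrot hb hbR hbS hSR hScl hSs hr1 hr2 hr3 hr4 hr5 hbm'
      hblim
    refine ⟨b, hb, hbR, ?_⟩
    have h1 := ballAndSpheres_smul hc hrep
    rw [← hwτ] at h1
    convert h1 using 1
    rw [mul_inv, inv_inv, mul_comm]

/-- The theorem in odd dimensions `≥ 5`. -/
theorem odd_balls_of (hMKC : MKC) (hSTR : STR) (hSEQ : SEQ) (hRSET : RSET) (hFUB : FUB)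
    (hREP : REP) (hREPF : REPF) (n : ℕ) (hn : Odd n) (h5 : 5 ≤ n) :
    ∃ L : ℝ, 0 < L ∧ ∀ R : ℝ, 0 < R → ∃ (w : Measure (En n)) (D : ℝ),
      IsTheMaximising (cBall n R) w ∧ MaxDiversity (cBall n R) D ∧
      (FiniteSpheres n R w ∨ ∃ b : ℝ, 0 ≤ b ∧ b < R ∧ BallAndSpheres n R b
          ((n.factorial : ℝ) * (volume : Measure (En n)).real (ball 0 1) * D)⁻¹ w) ∧
      (L < R → ∃ b : ℝ, R - L ≤ b ∧ b < R ∧ BallAndSpheres n R b
          ((n.factorial : ℝ) * (volume : Measure (En n)).real (ball 0 1) * D)⁻¹ w) := by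
  obtain ⟨l, hl⟩ := hn
  obtain ⟨L, -, -, hL, -, -, -, hbulk, -⟩ := MB.bulk n (by omega)
  refine ⟨L, hL, fun R hR => ?_⟩
  obtain ⟨w, D, -, hw, hD, hor⟩ := ball_of hMKC hSTR hSEQ hRSET hFUB hREP hREPF n (l + 1)
    (by omega) (by omega) R hR
  refine ⟨w, D, hw, hD, hor, fun hLR => ?_⟩
  obtain ⟨h1, h2⟩ := hbulk R hLR w hw
  rcases hor with h3 | ⟨b, hb, hbR, h3⟩
  · exact absurd h3.isFin h2
  · exact ⟨b, le_of_closedBall_subset (by omega) h3 hb h1, hbR, h3⟩

end Pool.Agent.Helper70.OB
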