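import Pool.Agent.Helper70.OB.GoalsE
import Pool.Agent.Helper70.OB.Final
import Pool.Agent.Helper70.MM.Phases

open MeasureTheory Set Metric Filter
open scoped ENNReal Topology
open Pool.Agent.Results.MP_91ee6f_gt
open Pool.Agent.Helper70.MB (KT kt_of_max)

namespace Pool.Agent.Helper70.OB

/-- A solid ball with infinitely many spheres is not a finite union of shells. -/
lemma BallAndSpheres.not_shells {n : ℕ} (hn : 1 ≤ n) {R b c : ℝ} {w : Measure (En n)}
    (hb : 0 ≤ b) (h : BallAndSpheres n R b c w) : ¬ IsFinUnionShells w.support := by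
  obtain ⟨r, m, h1, h2, h3, h4, h5, h6⟩ := h
  rintro ⟨F, hF, hFS⟩
  have hnt : Nontrivial (En n) := by
    have : Nonempty (Fin n) := ⟨⟨0, by omega⟩⟩
    infer_instance
  have hlim : ∀ j, b < r j := fun j => lt_of_le_of_lt (h1.antitone.le_of_tendsto h3 (j + 1))
    (h1 (Nat.lt_succ_self j))
  have hex : ∀ t : ℝ, 0 ≤ t → ∃ x : En n, ‖x‖ = t := by
    intro t ht
    obtain ⟨x, hx⟩ : (sphere (0 : En n) t).Nonempty := NormedSpace.sphere_nonempty.2 ht
    exact ⟨x, mem_sphere_zero_iff_norm.1 hx⟩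
  have hp : ∀ i, ∃ p ∈ F, p.1 ≤ r i ∧ r i ≤ p.2 := by
    intro i
    obtain ⟨x, hx⟩ := hex (r i) (by have := hlim i; linarith)
    have hx1 : x ∈ w.support := by
      rw [h6]
      exact Or.inr (mem_iUnion.2 ⟨i, mem_sphere_zero_iff_norm.2 hx⟩)
    rw [hFS, mem_iUnion₂] at hx1
    obtain ⟨p, hp, hx2⟩ := hx1
    rw [mem_setOf_eq, hx] at hx2
    exact ⟨p, hp, hx2⟩
  choose p hpF hp1 hp2 using hp
  haveI : Finite F := hF
  obtain ⟨i, j, hij, hpij⟩ := Finite.exists_ne_map_eq_of_infinite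
    (fun i : ℕ => (⟨p i, hpF i⟩ : F))
  have hpij' : p i = p j := congrArg Subtype.val hpij
  -- the smaller index
  have key : ∀ i j : ℕ, i < j → p i = p j → False := by
    intro i j hlt hpe
    have h7 : r (i + 1) < r i := h1 (Nat.lt_succ_self i)
    have h8 : r j ≤ r (i + 1) := h1.antitone hlt
    have hb1 := hlim (i + 1)
    obtain ⟨x, hx⟩ := hex ((r (i + 1) + r i) / 2) (by linarith)
    have hx1 : x ∈ w.support := by
      rw [hFS, mem_iUnion₂]
      refine ⟨p i, hpF i, ?_⟩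
      rw [mem_setOf_eq, hx]
      have := hp1 j
      rw [← hpe] at this
      have := hp2 i
      constructor <;> linarith
    rw [h6] at hx1
    rcases hx1 with hx2 | hx2
    · rw [mem_closedBall_zero_iff, hx] at hx2
      linarith
    · obtain ⟨l, hl⟩ := mem_iUnion.1 hx2
      rw [mem_sphere_zero_iff_norm, hx] at hl
      rcases Nat.lt_or_ge i l with hil | hil
      · have := h1.antitone (show i + 1 ≤ l from hil)
        linarith
      · have := h1.antitone hil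
        linarith
  rcases lt_or_gt_of_ne hij with hlt | hlt
  · exact key i j hlt hpij'
  · exact key j i hlt hpij'.symm

/-- Data of the maximising measure of a ball. -/
lemma ball_data (n : ℕ) (hn : 2 ≤ n) (R : ℝ) (hR : 0 < R) {w : Measure (En n)}
    (hw : IsTheMaximising (cBall n R) w) :
    ∃ (c : ℝ) (τ : Measure (En n)), 0 < c ∧ τ.support = w.support ∧ Rot τ ∧
      KT (closedBall 0 R) τ ∧ τ {0} = 0 ∧ sphere 0 R ⊆ τ.support := by
  obtain ⟨Rc, -, -, -, hball⟩ := MM.ballAll n hn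
  obtain ⟨μ₀, hμ₀, huniq₀, hbd, -, hsing, -, -, -⟩ := hball R hR
  obtain ⟨μ, c, hc, hmax, hdiv, huniq, hk1, hk2⟩ :=
    MM.fEXMAX n (closedBall (0 : En n) R) (isCompact_closedBall _ _)
      ⟨0, mem_closedBall_self hR.le⟩
  obtain rfl : μ₀ = μ := huniq μ₀ hμ₀
  obtain ⟨μ', hwμ', hμ'⟩ := hw
  obtain rfl : μ' = μ₀ := huniq μ' ((hμ' μ').2 rfl)
  have hkt := kt_of_max (isCompact_closedBall _ _) hc hmax hk1 hk2
  have hci : 0 < c⁻¹ := inv_pos.2 hc
  have hsupp : (ENNReal.ofReal c⁻¹ • inEn μ').support = (inEn μ').support :=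
    support_ofReal_smul _ hci
  refine ⟨c, ENNReal.ofReal c⁻¹ • inEn μ', hc, ?_, ?_, hkt, ?_, ?_⟩
  · rw [hsupp, hwμ']
  · intro g
    rw [Measure.map_smul]
    exact congrArg (fun ν => ENNReal.ofReal c⁻¹ • ν) (MM.fROT n R hR μ' hmax g)
  · haveI hno := Measure.nullSingletonClass_hausdorff (En n) one_pos
    have h1 := hsing {0} ⟨fun _ => {0}, by simp, fun i => by
      rw [measure_singleton]; exact ENNReal.zero_lt_top⟩
    have h2 : ({0} : Set (En n)) ∩ ball 0 R = {0} := by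
      rw [inter_eq_left]
      intro x hx
      rw [mem_singleton_iff] at hx
      rw [hx]
      exact mem_ball_self hR
    rw [h2] at h1
    rw [Measure.smul_apply]
    exact (congrArg (fun x => ENNReal.ofReal c⁻¹ • x) h1).trans (smul_zero _)
  · rw [hsupp]
    exact hbd

/-- Dimensions two and three: a solid ball and the boundary sphere. -/
theorem low_of (hPLS : PLS) (n : ℕ) (hn : 2 ≤ n) (hn3 : n ≤ 3) (R : ℝ) (hR : 0 < R)
    {w : Measure (En n)} (hw : IsTheMaximising (cBall n R) w)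
    (h : (w.support ∩ oBall n R).Nonempty) :
    ∃ b : ℝ, 0 < b ∧ b < R ∧ w.support = closedBall 0 b ∪ sphere 0 R := by
  rcases Nat.lt_or_ge n 3 with hlt | hge
  · obtain rfl : n = 2 := by omega
    obtain ⟨c, τ, -, hsupp, hrot, hkt, hzero, hbd⟩ := ball_data 2 le_rfl R hR hw
    rw [← hsupp]
    refine hPLS τ R hR hrot hkt hzero hbd ?_
    rw [hsupp]
    exact h
  · obtain rfl : n = 3 := by omega
    obtain ⟨Rc, -, -, -, h3⟩ := Pool.Agent.Helper67.MaxMeas.ball_three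
    obtain ⟨μ, hμ, h4, h5⟩ := h3 R hR
    obtain ⟨ν, hwν, hν⟩ := hw
    have hνμ : ν = μ := (hμ ν).1 ((hν ν).2 rfl)
    subst hνμ
    rcases le_or_gt R Rc with hle | hlt
    · exfalso
      have h6 := (h4 hle).2.1
      obtain ⟨x, hx1, hx2⟩ := h
      rw [hwν] at hx1
      have hx3 : x ∈ sphere (0 : E3) R := h6 ▸ hx1
      rw [mem_sphere_zero_iff_norm] at hx3
      unfold oBall at hx2
      rw [mem_ball_zero_iff] at hx2
      linarith
    · obtain ⟨-, b, hb, hbR, -, -, hform⟩ := h5 hlt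
      refine ⟨b, hb, hbR, ?_⟩
      rw [hwν]
      exact hform.2.2.2.1

/-- Even dimensions `≥ 4`, large radius. -/
theorem even_of (hESTR : ESTR) (n : ℕ) (hn : 4 ≤ n) (hev : Even n) (R ρ : ℝ) (hR : 0 < R)
    (hρ : 0 < ρ) {w : Measure (En n)} (hw : IsTheMaximising (cBall n R) w)
    (h : closedBall 0 ρ ⊆ w.support) : ¬ IsFinUnionShells w.support := by
  obtain ⟨k, hk⟩ := hev
  obtain ⟨c, τ, -, hsupp, hrot, hkt, hzero, hbd⟩ := ball_data n (by omega) R hR hw
  rw [← hsupp] at h ⊢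
  exact hESTR n k (by omega) (by omega) τ R ρ hR hρ hrot hkt hbd h

/-- Everything about balls. -/
theorem ball_structure_of (hMKC : MKC) (hSTR : STR) (hSEQ : SEQ) (hRSET : RSET) (hFUB : FUB)
    (hREP : REP) (hREPF : REPF) (hPLS : PLS) (hESTR : ESTR) (n : ℕ) (hn : 2 ≤ n) :
    ∃ Rc L : ℝ, (n : ℝ) - 1 ≤ Rc ∧ Rc ≤ 2 * n * Real.log 5 ∧ (n = 2 → Rc < 17 / 10) ∧
      sphEnergy n Rc = Real.exp (-Rc) ∧ Rc ≤ L ∧
      (∀ R : ℝ, 0 < R → (sphEnergy n R ≤ Real.exp (-R) ↔ R ≤ Rc) ∧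
        ∃ (w : Measure (En n)) (D : ℝ), IsTheMaximising (cBall n R) w ∧
          MaxDiversity (cBall n R) D ∧
          (R ≤ Rc → w = sphUnif n R ∧ w.support = sphere 0 R ∧ D = (sphEnergy n R)⁻¹) ∧
          (Rc < R → sphere 0 R ⊆ w.support ∧ (w.support ∩ ball 0 R).Nonempty) ∧
          (n ≤ 3 → Rc < R → ∃ b : ℝ, 0 < b ∧ b < R ∧
            w.support = closedBall 0 b ∪ sphere 0 R) ∧
          (4 ≤ n → L < R → closedBall 0 (R - L) ⊆ w.support ∧ ¬ IsFinUnionShells w.support) ∧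
          (5 ≤ n → Odd n → FiniteSpheres n R w ∨ ∃ b : ℝ, 0 ≤ b ∧ b < R ∧
            BallAndSpheres n R b
              ((n.factorial : ℝ) * (volume : Measure (En n)).real (ball 0 1) * D)⁻¹ w) ∧
          (5 ≤ n → Odd n → L < R → ∃ b : ℝ, R - L ≤ b ∧ b < R ∧
            BallAndSpheres n R b
              ((n.factorial : ℝ) * (volume : Measure (En n)).real (ball 0 1) * D)⁻¹ w)) ∧
      (4 ≤ n → ∀ η : ℝ, 0 < η → ∃ ε : ℝ, 0 < ε ∧ ∀ R : ℝ, Rc < R → R < Rc + ε →
        ∃ (s m : ℝ) (w : Measure (En n)), 0 < s ∧ s < η ∧ s < R ∧ 0 < m ∧ m < 1 ∧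
          w = ENNReal.ofReal (1 - m) • sphUnif n R + ENNReal.ofReal m • sphUnif n s ∧
          IsTheMaximising (cBall n R) w ∧ w.support = sphere 0 R ∪ sphere 0 s) := by
  obtain ⟨Rc, h1, h2, h3, h4, h5, h6⟩ := MM.phases n hn
  obtain ⟨L₀, -, -, hL₀, -, -, -, hbulk, -⟩ := MB.bulk n (by omega)
  have hn' : (2 : ℝ) ≤ n := by exact_mod_cast hn
  refine ⟨Rc, max L₀ Rc, h1, h2, h3, h4, le_max_right _ _, fun R hR => ⟨(h5 R hR).1, ?_⟩, h6⟩
  obtain ⟨-, w, hw, h7, h8, -, -⟩ := h5 R hR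
  -- the diversity
  obtain ⟨μ, c, hc, hmax, hdiv, huniq, hk1, hk2⟩ :=
    MM.fEXMAX n (closedBall (0 : En n) R) (isCompact_closedBall _ _)
      ⟨0, mem_closedBall_self hR.le⟩
  have hD : MaxDiversity (cBall n R) c⁻¹ := by
    intro ν hν q
    rw [huniq ν hν]
    exact hdiv q
  have hbig : max L₀ Rc < R → closedBall 0 (R - max L₀ Rc) ⊆ w.support ∧
      ¬ IsFinUnionSpheres w.support := by
    intro hlt
    obtain ⟨h9, h10⟩ := hbulk R (lt_of_le_of_lt (le_max_left _ _) hlt) w hw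
    refine ⟨(closedBall_subset_closedBall ?_).trans h9, h10⟩
    have := le_max_left L₀ Rc
    linarith
  -- odd dimensions
  have hodd : 5 ≤ n → Odd n → FiniteSpheres n R w ∨ ∃ b : ℝ, 0 ≤ b ∧ b < R ∧
      BallAndSpheres n R b
        ((n.factorial : ℝ) * (volume : Measure (En n)).real (ball 0 1) * c⁻¹)⁻¹ w := by
    intro hn5 ho
    obtain ⟨l, hl⟩ := ho
    obtain ⟨w', D', -, hw', hD', hor⟩ := ball_of hMKC hSTR hSEQ hRSET hFUB hREP hREPF n (l + 1)
      (by omega) (by omega) R hR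
    obtain ⟨ν, hwν, hν⟩ := hw
    obtain ⟨ν', hwν', hν'⟩ := hw'
    have hνν : ν = ν' := (hν' ν).1 ((hν ν).2 rfl)
    have hww : w = w' := by rw [hwν, hwν', hνν]
    have hDD : D' = c⁻¹ := by
      rw [← hD' ν' ((hν' ν').2 rfl) 0, ← hD ν' ((hν' ν').2 rfl) 0]
    rw [hww, ← hDD]
    exact hor
  refine ⟨w, c⁻¹, hw, hD, ?_, h8, ?_, ?_, hodd, ?_⟩
  · intro hle
    obtain ⟨h9, h10, h11⟩ := h7 hle
    refine ⟨h9, h10, ?_⟩
    have hmaxμ : IsMaximising μ := hmax
    rw [← hD μ hmaxμ 0, ← h11 μ hmaxμ 0]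
  · intro hn3 hlt
    exact low_of hPLS n hn hn3 R hR hw (h8 hlt).2
  · intro hn4 hlt
    obtain ⟨h9, h10⟩ := hbig hlt
    refine ⟨h9, ?_⟩
    rcases Nat.even_or_odd n with hev | hod
    · exact even_of hESTR n hn4 hev R (R - max L₀ Rc) hR (by linarith) hw h9
    · rcases hodd (by rcases hod with ⟨l, hl⟩; omega) hod with h11 | ⟨b, hb, hbR, h11⟩
      · exact absurd h11.isFin h10
      · exact h11.not_shells (by omega) hb
  · intro hn5 ho hlt
    obtain ⟨h9, h10⟩ := hbig hlt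
    rcases hodd hn5 ho with h11 | ⟨b, hb, hbR, h11⟩
    · exact absurd h11.isFin h10
    · exact ⟨b, le_of_closedBall_subset (by omega) h11 hb h9, hbR, h11⟩

end Pool.Agent.Helper70.OB
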