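import Pool.Agent.Helper70.MB.AllB

/-!
Project OB (MP_91ee6f_gt, odd dimensions).  Let `n = 2k-1 ≥ 5` be odd.  The support of the maximising
measure of the ball `B_R ⊂ ℝⁿ` is either a finite union of concentric spheres, or a solid ball
`B_b` (`0 ≤ b < R`, possibly the centre only) together with INFINITELY many spheres of radii
`R = r_0 > r_1 > …` accumulating at `b`; and the measure is `c Leb|B_b + ∑ m_i σ_{r_i}`.

Idea.  With `τ = D_max w`, `V_0 = Kτ - 1` (a radial function) and `V_j = (1-Δ)^j V_0` one has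
`(1-Δ) V_{k-1} = n! ω_n τ - 1`.  All this is written as a first order system on `(0,∞)` (structure
`Chain`): `V_j' = P_j / r^N`, `P_j' = r^N (V_j - V_{j+1})` for `j < k-1`, and
`P_{k-1} = ∫_0^r u^N (V_{k-1}+1) du - m(r)`, `N = n-1 = 2k-2`, `m(r) = (n-1)! τ(ball 0 r)`.

Each `def NAME : Prop` is a goal; its docstring contains the complete proof.  Other goals may be
used as hypotheses as stated in the packet.
-/

open MeasureTheory Set Metric Filter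
open scoped ENNReal Topology
open Pool.Agent.Results.MP_91ee6f_gt
open Pool.Agent.Helper70.MM (om om_zero om_one om_rel om_pos om_hasDerivAt om_le om_measurable)
open Pool.Agent.Helper70.MB (KT)

namespace Pool.Agent.Helper70.OB

/-- rotation invariance -/
def Rot {n : ℕ} (τ : Measure (En n)) : Prop := ∀ g : En n ≃ₗᵢ[ℝ] En n, τ.map g = τ

/-- potential with kernel `ω_j` at the point `r e` -/
noncomputable def gj {n : ℕ} (τ : Measure (En n)) (e : En n) (j : ℕ) (r : ℝ) : ℝ :=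
  ∫ y, om j (dist (r • e) y) ∂τ

/-- regularised potential at the point `r e` -/
noncomputable def gr {n : ℕ} (τ : Measure (En n)) (e : En n) (ε : ℝ) (j : ℕ) (r : ℝ) : ℝ :=
  ∫ y, om j (Real.sqrt (dist (r • e) y ^ 2 + ε ^ 2)) ∂τ

/-- `A_j = ∫_0^∞ s^(n-1) ω_j(s) ds` -/
noncomputable def AA (n j : ℕ) : ℝ := ∫ s in Ioi (0 : ℝ), s ^ (n - 1) * om j s

/-- `c_j = ∏_{i<j} (n-1-2i)` -/
noncomputable def cc (n j : ℕ) : ℝ := ∏ i ∈ Finset.range j, ((n : ℝ) - 1 - 2 * i)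

/-- the flux `r^(n-1) ∂_r g_j` -/
noncomputable def pj {n : ℕ} (k : ℕ) (τ : Measure (En n)) (e : En n) (j : ℕ) (r : ℝ) : ℝ :=
  (∫ u in (0 : ℝ)..r, u ^ (n - 1) *
    (gj τ e j u - ((n : ℝ) - 1 - 2 * j) * gj τ e (j + 1) u)) -
    (if j + 1 < k then 0 else AA n j * τ.real (ball 0 r))

/-- the radial system of order `2k`, see the head of the file -/
structure Chain (k : ℕ) (V P : ℕ → ℝ → ℝ) (m : ℝ → ℝ) : Prop where
  two_le : 2 ≤ k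
  ge : ∀ j < k, ∀ r : ℝ, 0 < r → -1 ≤ V j r
  bdd : ∀ j < k, ∃ C : ℝ, ∀ r : ℝ, 1 ≤ r → V j r ≤ C
  int : ∀ j < k, ∀ r : ℝ, 0 < r →
    IntervalIntegrable (fun u => u ^ (2 * k - 2) * V j u) volume 0 r
  pint : ∀ j < k, ∀ r₁ r₂ : ℝ, 0 < r₁ → r₁ ≤ r₂ →
    IntervalIntegrable (fun t => P j t / t ^ (2 * k - 2)) volume r₁ r₂
  der : ∀ j < k, ∀ r₁ r₂ : ℝ, 0 < r₁ → r₁ ≤ r₂ →
    V j r₂ - V j r₁ = ∫ t in r₁..r₂, P j t / t ^ (2 * k - 2)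
  flux : ∀ j, j + 1 < k → ∀ r : ℝ, 0 < r →
    P j r = ∫ u in (0 : ℝ)..r, u ^ (2 * k - 2) * (V j u - V (j + 1) u)
  top : ∀ r : ℝ, 0 < r →
    P (k - 1) r = (∫ u in (0 : ℝ)..r, u ^ (2 * k - 2) * (V (k - 1) u + 1)) - m r
  mono : Monotone m
  nonneg : ∀ r : ℝ, 0 ≤ m r
  mbdd : ∃ C : ℝ, ∀ r : ℝ, m r ≤ C
  left : ∀ r : ℝ, 0 < r → ContinuousWithinAt m (Iic r) r
  zero : Tendsto m (𝓝[>] 0) (𝓝 0)

/-- `W_j = K P_j - V_j r^N K'`, `K = ω_{k-1}`, `K' = - r ω_k` -/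
noncomputable def WW (k : ℕ) (V P : ℕ → ℝ → ℝ) (j : ℕ) (r : ℝ) : ℝ :=
  om (k - 1) r * P j r + V j r * (r ^ (2 * k - 1) * om k r)

/-- `f` has at least `q` zeros in `(b,∞)` -/
def ZZ (f : ℝ → ℝ) (b : ℝ) (q : ℕ) : Prop :=
  ∃ x : Fin q → ℝ, StrictMono x ∧ ∀ i, b < x i ∧ f (x i) = 0

/-! ### From the measure to the radial system -/

/-- Integrals of `s^(n-1) ω_j(s)`.
PROOF.  By induction on `j`: `0 < ω_j(s) ≤ C_j s^(-(2j-1)) e^{-s/2}` for `j ≥ 1`, `s > 0` (and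
`ω_0 = e^{-s}`), from `s² ω_{j+2} = ω_j + (2j+1) ω_{j+1}`; `2j-1 ≤ n-2`, so `s^(n-1) ω_j` is bounded by
`C e^{-s/2}(1 + s^{n-1})`: integrable.  For `j+1 < k`:
`s^(n-1) ω_j = s^(n+1) ω_{j+2} - (2j+1) s^(n-1) ω_{j+1}` and `s^(n+1) ω_{j+2} = -s^n ω_{j+1}'`
(`om_hasDerivAt`), so `(s^n ω_{j+1})' = n s^(n-1) ω_{j+1} - s^(n+1) ω_{j+2}` and
`∫_0^∞ s^(n+1) ω_{j+2} = n A_{j+1}` (`s^n ω_{j+1} → 0` at `0` since `2j+1 < n`, and at `∞`);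
hence `A_j = (n - 2j - 1) A_{j+1}`.  `A_0 = ∫ s^(n-1) e^{-s} = (n-1)!`; last claim by induction. -/
def OMI : Prop := ∀ n k : ℕ, 2 ≤ k → n + 1 = 2 * k →
  (∀ j < k, IntegrableOn (fun s : ℝ => s ^ (n - 1) * om j s) (Ioi 0)) ∧
  (∀ j, j + 1 < k → AA n j = ((n : ℝ) - 1 - 2 * j) * AA n (j + 1)) ∧
  (∀ j < k, cc n j * AA n j = ((n - 1).factorial : ℝ)) ∧
  (∀ j : ℕ, ∃ C : ℝ, ∀ s : ℝ, 1 ≤ s → om j s ≤ C * Real.exp (-s))

/-- The kernel `ε² ω_{j+2}(√(s²+ε²))` has mass `→ 0` for `j < k-1`, and is an approximate point mass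
for `j = k-1`.
PROOF.  `ρ = √(s²+ε²)`.  `d/ds (-s^n ω_{j+1}(ρ)) = -n s^(n-1) ω_{j+1}(ρ) + s^(n+1) ω_{j+2}(ρ)`
(`d/ds ω_{j+1}(ρ) = -ρ ω_{j+2}(ρ) s/ρ`), and
`s² ω_{j+2}(ρ) = ρ² ω_{j+2}(ρ) - ε² ω_{j+2}(ρ) = ω_j(ρ) + (2j+1) ω_{j+1}(ρ) - ε² ω_{j+2}(ρ)` (`om_rel`).
So the derivative is `s^(n-1) [ω_j(ρ) - (n-1-2j) ω_{j+1}(ρ) - ε² ω_{j+2}(ρ)]`, all terms are
integrable on `(0,∞)` (`ρ ≥ max ε s`, `OMI`), and `s^n ω_{j+1}(ρ) → 0` at `0` and `∞`; hence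
`∫ s^(n-1) ε² ω_{j+2}(ρ) = ∫ s^(n-1) ω_j(ρ) - (n-1-2j) ∫ s^(n-1) ω_{j+1}(ρ) ≤ A_j` (`n-1-2j ≥ 0`,
`ω_j` decreasing).  For `ε → 0` dominated convergence (`ω_j(ρ) ≤ ω_j(s)`) gives the limit
`A_j - (n-1-2j) A_{j+1} = 0` if `j+1 < k` (`OMI`), and `A_j` if `j = k-1` (`n-1-2j = 0`).
Last part: the integral is `≤ ε² ∫_η^∞ s^(n-1) ω_{j+2}(s) ds`. -/
def MASS : Prop := ∀ n k : ℕ, 2 ≤ k → n + 1 = 2 * k → ∀ j < k,
  (∀ ε : ℝ, 0 < ε →
    IntegrableOn (fun s : ℝ => s ^ (n - 1) * (ε ^ 2 * om (j + 2) (Real.sqrt (s ^ 2 + ε ^ 2))))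
      (Ioi 0) ∧
    ∫ s in Ioi (0 : ℝ), s ^ (n - 1) * (ε ^ 2 * om (j + 2) (Real.sqrt (s ^ 2 + ε ^ 2))) ≤
      AA n j) ∧
  Tendsto (fun ε : ℝ => ∫ s in Ioi (0 : ℝ),
    s ^ (n - 1) * (ε ^ 2 * om (j + 2) (Real.sqrt (s ^ 2 + ε ^ 2)))) (𝓝[>] 0)
    (𝓝 (if j + 1 < k then 0 else AA n j)) ∧
  ∀ η : ℝ, 0 < η → Tendsto (fun ε : ℝ => ∫ s in Ioi η,
    s ^ (n - 1) * (ε ^ 2 * om (j + 2) (Real.sqrt (s ^ 2 + ε ^ 2)))) (𝓝[>] 0) (𝓝 0)

/-- The radial equation for the regularised potentials (smooth kernels).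
PROOF.  `F(x) = ∫ ω_j(ρ) dτ(y)`, `ρ = √(|x-y|²+ε²) ≥ ε`.  With `f_j(u) = ω_j(√u)`, `f_j' = -f_{j+1}/2`
(`om_hasDerivAt`), along a line `x + t v` (`|v| = 1`): `d/dt ω_j(ρ) = -ω_{j+1}(ρ) ⟪x+tv-y,v⟫`,
`d²/dt² = ω_{j+2}(ρ) ⟪x+tv-y,v⟫² - ω_{j+1}(ρ)`; both are bounded (`ρ ω_{j+1}(ρ)`, `ρ² ω_{j+2}(ρ)`
are bounded for `ρ ≥ ε`), so one can differentiate twice under the integral sign and the
derivatives are continuous in `t` (compare `Pool.Agent.Helper77.MM.ud`).  `F` is radial (`Rot`; a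
reflection maps `x` to `x'` if `‖x‖ = ‖x'‖`, `reflection_sub`); let `g(r) = F(r e) = gr τ e ε j r`.
For a unit vector `v ⟂ e`: `F(r e + t v) = g(√(r²+t²))`, so its second derivative in `t` at `0` is
`g'(r)/r`.  Sum over an orthonormal basis containing `e`:
`g'' + (n-1) g'/r = ∫ (ω_{j+2}(ρ)|x-y|² - n ω_{j+1}(ρ)) dτ`
`= g - (n-1-2j) gr τ e ε (j+1) r - ε² gr τ e ε (j+2) r` because
`|x-y|² ω_{j+2}(ρ) = (ρ²-ε²) ω_{j+2}(ρ) = ω_j(ρ) + (2j+1) ω_{j+1}(ρ) - ε² ω_{j+2}(ρ)` (`om_rel`).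
So `(r^(n-1) g')' = r^(n-1) (…)`, and `r^(n-1) g' → 0` as `r → 0` (`g'` bounded); integrate. -/
def REG : Prop := ∀ (n : ℕ), 2 ≤ n → ∀ τ : Measure (En n), IsFiniteMeasure τ → Rot τ →
  ∀ e : En n, ‖e‖ = 1 → ∀ ε : ℝ, 0 < ε → ∀ j : ℕ, Continuous (gr τ e ε j) ∧
    ∀ r : ℝ, 0 < r → HasDerivAt (gr τ e ε j)
      ((∫ u in (0 : ℝ)..r, u ^ (n - 1) * (gr τ e ε j u -
        ((n : ℝ) - 1 - 2 * j) * gr τ e ε (j + 1) u - ε ^ 2 * gr τ e ε (j + 2) u)) /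
          r ^ (n - 1)) r

/-- Radial integration.
PROOF.  Second part: polar coordinates (`x ↦ x - y` preserves the volume;
`Mathlib/MeasureTheory/Constructions/HaarToSphere.lean`, e.g. `measurePreserving_homeomorph…` and
`integral_fun_norm_addHaar`; volume of the sphere `= n vol(ball)`).  First part: for `|θ| = 1` the
function `∫⁻ h(dist (u θ) y) dτ(y)` does not depend on `θ` (`Rot`), so in polar coordinates
`∫⁻_{x ∈ ball 0 r} ∫⁻ h(dist x y) dτ(y) dx = n vol(ball) ∫⁻_0^r u^(n-1) ∫⁻ h(dist (u e) y) dτ(y) du`;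
exchange the integrals on the left (`lintegral_lintegral_swap`). -/
def RADI : Prop := ∀ (n : ℕ), 1 ≤ n → ∀ τ : Measure (En n), IsFiniteMeasure τ → Rot τ →
  ∀ e : En n, ‖e‖ = 1 → ∀ h : ℝ → ℝ≥0∞, Measurable h →
  (∀ r : ℝ, 0 < r → (n : ℝ≥0∞) * volume (ball (0 : En n) 1) *
    ∫⁻ u in Ioo 0 r, ENNReal.ofReal (u ^ (n - 1)) * ∫⁻ y, h (dist (u • e) y) ∂τ =
      ∫⁻ y, (∫⁻ x in ball (0 : En n) r, h (dist x y)) ∂τ) ∧
  ∀ (y : En n) (η : ℝ), 0 ≤ η → ∫⁻ x in {x : En n | η < dist x y}, h (dist x y) =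
    (n : ℝ≥0∞) * volume (ball (0 : En n) 1) *
      ∫⁻ u in Ioi η, ENNReal.ofReal (u ^ (n - 1)) * h u

/-- The radial system for the potentials `g_j`, `j < k`, of a rotation invariant finite measure.
PROOF.  `T = τ(univ)`.  (0) `τ {r e} = 0` for `r > 0` (`n ≥ 2`: infinitely many points of the
sphere have the same mass), so for a.e. `y`: `0 < dist (r e) y` and `ω_j(√(d²+ε²)) ↑ ω_j(d)` as
`ε ↓ 0`; hence `gr τ e ε j r ↑ ∫⁻ ω_j(dist (r e) y) dτ ∈ [0,∞]` (monotone convergence).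
(1) By `RADI`, `OMI`: `∫_0^r u^(n-1) ∫⁻ ω_j(dist (u e) y) dτ du ≤ T A_j < ∞` for `j < k`; so
`u^(n-1) g_j(u)` is integrable on `(0,r)` and `∫⁻ ω_j(dist (u e) y) dτ < ∞` for a.e. `u`.
(2) Put `P^ε(t) = ∫_0^t u^(n-1)(gr j - (n-1-2j) gr (j+1) - ε² gr (j+2)) du` (`REG`).  The three
terms are bounded by `T A_j`, `(n-1-2j) T A_{j+1}` (zero if `j = k-1`) and `T A_j` (`RADI` with
`h(d) = ε² ω_{j+2}(√(d²+ε²))` and `MASS`).  As `gr j (r₂) - gr j (r₁) = ∫_{r₁}^{r₂} P^ε(t)/t^(n-1) dt`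
with `|P^ε| ≤ C`, finiteness of `∫⁻ ω_j(dist (r₁ e) y) dτ` for one `r₁` gives finiteness for all
`r > 0`: first claim.
(3) `ε → 0`: by monotone convergence the first two terms of `P^ε(t)` tend to
`∫_0^t u^(n-1)(g_j - (n-1-2j) g_{j+1})`.  The third term is, by `RADI`,
`(n ω)^{-1} ∫ Φ_ε(y) dτ(y)`, `ω = vol(ball 0 1)`, `Φ_ε(y) = ∫_{x ∈ ball 0 t} ε² ω_{j+2}(√(|x-y|²+ε²)) dx`,
`0 ≤ (n ω)^{-1} Φ_ε ≤ ∫_0^∞ s^(n-1) ε² ω_{j+2}(√(s²+ε²)) ds ≤ A_j`.  If `j+1 < k` it tends to `0`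
(`MASS`).  If `j = k-1`: for `|y| > t`, `Φ_ε(y)` is at most the integral over `|x-y| > |y|-t`, which
tends to `0`; for `|y| < t` it is at least the integral over `|x-y| ≤ t-|y|`, so
`(n ω)^{-1} Φ_ε(y) → A_j`; so if `τ(sphere 0 t) = 0` the third term tends to `A_j τ(ball 0 t)`
(dominated convergence).  So `P^ε(t) → pj k τ e j t` for all `t > 0` except countably many
(those with `τ(sphere 0 t) > 0`), and dominated convergence in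
`gr j (r₂) - gr j (r₁) = ∫_{r₁}^{r₂} P^ε(t)/t^(n-1) dt` gives the last claim. -/
def CHN : Prop := ∀ n k : ℕ, 2 ≤ k → n + 1 = 2 * k → ∀ τ : Measure (En n), IsFiniteMeasure τ →
  Rot τ → ∀ e : En n, ‖e‖ = 1 → ∀ j < k,
    (∀ r : ℝ, 0 < r → Integrable (fun y => om j (dist (r • e) y)) τ) ∧
    (∀ r : ℝ, 0 < r → IntervalIntegrable (fun u => u ^ (n - 1) * gj τ e j u) volume 0 r) ∧
    ∀ r₁ r₂ : ℝ, 0 < r₁ → r₁ ≤ r₂ →
      IntervalIntegrable (fun t => pj k τ e j t / t ^ (n - 1)) volume r₁ r₂ ∧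
      gj τ e j r₂ - gj τ e j r₁ = ∫ t in r₁..r₂, pj k τ e j t / t ^ (n - 1)

/-- `V_j` for a measure -/
noncomputable def VV {n : ℕ} (τ : Measure (En n)) (e : En n) (j : ℕ) (r : ℝ) : ℝ :=
  cc n j * gj τ e j r - 1

/-- `P_j` for a measure -/
noncomputable def PP {n : ℕ} (k : ℕ) (τ : Measure (En n)) (e : En n) (j : ℕ) (r : ℝ) : ℝ :=
  cc n j * pj k τ e j r

/-- `m` for a measure -/
noncomputable def mm {n : ℕ} (τ : Measure (En n)) (r : ℝ) : ℝ :=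
  ((n - 1).factorial : ℝ) * τ.real (ball 0 r)

/-- PROOF.  `n - 1 = 2k-2`.  `cc n (j+1) = cc n j (n-1-2j)` and `cc n j > 0` for `j < k`, so `flux` and
`der` are `CHN` multiplied by `cc n j`; `top`: `n-1-2(k-1) = 0` and `cc n (k-1) AA n (k-1) = (n-1)!`
(`OMI`), `int`: `u^(n-1)` is integrable.  `ge`: `gj ≥ 0`.  `bdd`: `V_j` is continuous on `[1,R+1]`
(`der`, `pint`) and for `r ≥ R+1` one has `dist (r e) y ≥ 1` a.e., so `gj ≤ ω_j(1) T`.  `left`: the ball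
is the increasing union of the smaller open balls.  `zero`: `τ(ball 0 r) → τ {0} = 0`. -/
def MKC : Prop := ∀ n k : ℕ, 2 ≤ k → n + 1 = 2 * k → ∀ (τ : Measure (En n)) (R : ℝ),
  IsFiniteMeasure τ → Rot τ → τ (closedBall 0 R)ᶜ = 0 → τ {0} = 0 → ∀ e : En n, ‖e‖ = 1 →
    Chain k (VV τ e) (PP k τ e) (mm τ)

/-! ### The radial system -/

/-- Basic facts.
PROOF.  `V_j` is a primitive of an interval integrable function, hence continuous on `(0,∞)`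
(`der`, `pint`).  For `j+1 < k` the integrand in `flux` is integrable near `0` (`int`) and
continuous on `(0,∞)`, so `P_j` has the stated derivative (fundamental theorem of calculus), in
particular is continuous, and so has `V_j`.  For `j = k-1`: `Q(r) = ∫_0^r u^(2k-2)(V_{k-1}+1)` is
differentiable, `P_{k-1} = Q - m`; where `m` is continuous, `V_{k-1}` has the derivative
`P_{k-1}/r^(2k-2)`; where `m` is locally constant `P_{k-1}` has the derivative of `Q`. -/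
def BAS : Prop := ∀ (k : ℕ) (V P : ℕ → ℝ → ℝ) (m : ℝ → ℝ), Chain k V P m →
  (∀ j < k, ContinuousOn (V j) (Ioi 0)) ∧
  (∀ j, j + 1 < k → ∀ r : ℝ, 0 < r →
    HasDerivAt (V j) (P j r / r ^ (2 * k - 2)) r ∧
    HasDerivAt (P j) (r ^ (2 * k - 2) * (V j r - V (j + 1) r)) r) ∧
  (∀ r : ℝ, 0 < r → ContinuousAt m r →
    HasDerivAt (V (k - 1)) (P (k - 1) r / r ^ (2 * k - 2)) r) ∧
  (∀ a b : ℝ, 0 ≤ a → (∀ x ∈ Ioo a b, ∀ y ∈ Ioo a b, m x = m y) → ∀ r ∈ Ioo a b,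
    HasDerivAt (V (k - 1)) (P (k - 1) r / r ^ (2 * k - 2)) r ∧
    HasDerivAt (P (k - 1)) (r ^ (2 * k - 2) * (V (k - 1) r + 1)) r)

/-- The functions `h_j = V_j / K` and `W_j`, `K = ω_{k-1}`.
PROOF (`BAS`).  `K' = -r ω_k`, and `(r^(2k-1) ω_k)' = r^(2k-2)((2k-1) ω_k - r² ω_{k+1}) =
-r^(2k-2) ω_{k-1}` (`om_rel`: `r² ω_{k+1} = ω_{k-1} + (2k-1) ω_k`).  So
`(V/K)' = (P/r^(2k-2) K + V r ω_k)/K² = W/(r^(2k-2) K²)` and
`W' = -r ω_k P + K P' + (P/r^(2k-2)) r^(2k-1) ω_k - V r^(2k-2) K = K P' - V r^(2k-2) K`, which is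
`-r^(2k-2) K V_{j+1}` for `j+1 < k` and `r^(2k-2) K` for `j = k-1` where `m` is constant.
At infinity: `-1 ≤ V_j ≤ C` for `r ≥ 1`, so `|P_j(r)| ≤ C' (1 + r^(2k-1))` (`flux`, `top`, `mbdd`), and
`ω_j(r) ≤ C e^{-r}` for `r ≥ 1` (last part of `OMI`, or a direct induction). -/
def WDER : Prop := ∀ (k : ℕ) (V P : ℕ → ℝ → ℝ) (m : ℝ → ℝ), Chain k V P m →
  (∀ j, j + 1 < k → ∀ r : ℝ, 0 < r →
    HasDerivAt (fun r => V j r / om (k - 1) r)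
      (WW k V P j r / (r ^ (2 * k - 2) * om (k - 1) r ^ 2)) r ∧
    HasDerivAt (WW k V P j) (-(r ^ (2 * k - 2) * om (k - 1) r * V (j + 1) r)) r) ∧
  (∀ a b : ℝ, 0 ≤ a → (∀ x ∈ Ioo a b, ∀ y ∈ Ioo a b, m x = m y) → ∀ r ∈ Ioo a b,
    HasDerivAt (fun r => V (k - 1) r / om (k - 1) r)
      (WW k V P (k - 1) r / (r ^ (2 * k - 2) * om (k - 1) r ^ 2)) r ∧
    HasDerivAt (WW k V P (k - 1)) (r ^ (2 * k - 2) * om (k - 1) r) r) ∧
  (∀ j < k, Tendsto (WW k V P j) atTop (𝓝 0))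

/-- Accumulation of zeros (from the right, and from the left).
PROOF (`BAS`, `WDER`).  Suppose `V_j` (`j+1 < k`) has zeros in `(a,a+δ)` for every `δ`.  Then it has
infinitely many zeros there; between two of them `h_j = V_j/K` has a zero of its derivative, so
`W_j` has (infinitely many) zeros in `(a,a+δ)`; by Rolle `W_j' = -r^(2k-2) K V_{j+1}` has zeros in
`(a,a+δ)`, so `V_{j+1}` has.  By induction this holds for all `j < k`; by continuity `V_j(a) = 0`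
for `j < k` and `W_j(a) = 0` for `j+1 < k`, so `P_j(a) = 0`. -/
def ACC : Prop := ∀ (k : ℕ) (V P : ℕ → ℝ → ℝ) (m : ℝ → ℝ), Chain k V P m → ∀ a : ℝ, 0 < a →
  ((∀ δ > 0, ∃ r, a < r ∧ r < a + δ ∧ V 0 r = 0) → ∀ j < k,
    (∀ δ > 0, ∃ r, a < r ∧ r < a + δ ∧ V j r = 0) ∧ V j a = 0 ∧ (j + 1 < k → P j a = 0)) ∧
  ((∀ δ > 0, ∃ r, a - δ < r ∧ r < a ∧ V 0 r = 0) → ∀ j < k,
    (∀ δ > 0, ∃ r, a - δ < r ∧ r < a ∧ V j r = 0) ∧ V j a = 0 ∧ (j + 1 < k → P j a = 0))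

/-- No atom at an accumulation point.
PROOF.  `m` has a right limit `M` at `a` (monotone); `P_{k-1}(r) → ℓ = Q - M`, `Q` the integral.
If `ℓ > 0` then `P_{k-1} > 0` on some `(a,a+δ)`, so `V_{k-1}(r) = V_{k-1}(r) - V_{k-1}(a) > 0` there
(`ACC`: `V_{k-1}(a) = 0`; `der`), contradiction to the zeros of `V_{k-1}` in `(a,a+δ)` (`ACC`);
similarly for `ℓ < 0`.  So `M = Q`. -/
def ATOM : Prop := ∀ (k : ℕ) (V P : ℕ → ℝ → ℝ) (m : ℝ → ℝ), Chain k V P m → ∀ a : ℝ, 0 < a →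
  (∀ δ > 0, ∃ r, a < r ∧ r < a + δ ∧ V 0 r = 0) →
  Tendsto m (𝓝[>] a) (𝓝 (∫ u in (0 : ℝ)..a, u ^ (2 * k - 2) * (V (k - 1) u + 1)))

/-- Bounds near `0`.
PROOF.  Descending induction on `j`, `0 < r ≤ 1`.  `j = k-1`: `P_{k-1}(r) ≥ -m(r) ≥ -C`, so
`V_{k-1}(r) = V_{k-1}(1) - ∫_r^1 P_{k-1}/t^(2k-2) ≤ C' r^(-(2k-3))`; and `V ≥ -1`.
Step `j+1 → j`: `P_j(r) = ∫_0^r u^(2k-2)(V_j - V_{j+1}) ≥ -∫_0^r u^(2k-2)(1 + C u^(-(2j+1))) ≥
-C' r^(2k-2-2j)`, so `V_j(r) = V_j(1) - ∫_r^1 P_j/t^(2k-2) ≤ C + C' ∫_r^1 t^(-2j) dt ≤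
C'' r^(-(2j-1))` (`C''` if `j = 0`).  Then `|P_j| ≤ ∫_0^r u^(2k-2)(|V_j| + |V_{j+1}|) ≤
C r^(2k-2-2j)`.  Finally `P_{k-1}(r) = ∫_0^r u^(2k-2)(V_{k-1}+1) - m(r) → 0` (`zero`). -/
def BND : Prop := ∀ (k : ℕ) (V P : ℕ → ℝ → ℝ) (m : ℝ → ℝ), Chain k V P m →
  (∃ C > 0, ∀ r : ℝ, 0 < r → r ≤ 1 →
    (∀ j < k, |V j r| ≤ C / r ^ (2 * j - 1)) ∧
    (∀ j, j + 1 < k → |P j r| ≤ C * r ^ (2 * k - 2 - 2 * j))) ∧
  Tendsto (P (k - 1)) (𝓝[>] 0) (𝓝 0)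

/-- The energy identity.
PROOF.  Write `N = 2k-2`, integrals over `(δ,a)`, `δ → 0`; `[f] = f(a) - f(δ)`.
(1) For `i+1 < k`, `j+1 < k`: `(V_i P_j - V_j P_i)' = r^N (V_j V_{i+1} - V_i V_{j+1})` (`BAS`).
(2) `∫ V_0' P_{k-1}` in two ways.  With `Q = ∫_0^r u^N (V_{k-1}+1)`: `∫ V_0' P_{k-1} = ∫ V_0' Q -
∫ V_0' m = [V_0 Q] - ∫ r^N V_0 (V_{k-1}+1) - ∫ V_0' m`.  And `V_0' P_{k-1} = P_0 V_{k-1}'`
(`V_j' = P_j/r^N`, for all `r` with `m` continuous at `r`, i.e. off a countable set), so (partial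
integration, e.g. `intervalIntegral.integral_eq_of_hasDerivAt_off_countable` for `P_0 V_{k-1}`)
`= [P_0 V_{k-1}] - ∫ r^N (V_0 - V_1) V_{k-1}`.  So
`∫ r^N V_1 V_{k-1} = -∫ r^N V_0 + [V_0 Q] - [P_0 V_{k-1}] - ∫ V_0' m`.
(3) By (1) with `(i,j) = (i,k-1-i)`, `1 ≤ i ≤ k-2`: `∫ r^N V_i V_{k-i} = ∫ r^N V_{i+1} V_{k-1-i} +
boundary terms [V_i P_{k-1-i} - V_{k-1-i} P_i]`.
(4) If `k = 2l`, (3) leads from `∫ r^N V_1 V_{k-1}` to `∫ r^N V_l² ≥ 0`.  If `k = 2l+1` it leads to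
`∫ r^N V_l V_{l+1} = ∫ r^N V_l² - ∫ V_l P_l' = ∫ r^N V_l² + ∫ P_l²/r^N - [V_l P_l]`.
(5) All boundary terms at `a` vanish (`V_j(a) = P_j(a) = 0` for `j+1 < k`).  Those at `δ` tend to `0`
by `BND`: `|V_i P_j|(δ) ≤ C δ^(-(2i-1)) δ^(2k-2-2j) = C δ` for `i + j = k-1`, `1 ≤ i`, `j ≤ k-2`;
`V_0 Q → 0`; `|P_0 V_{k-1}| ≤ C δ^(2k-2) δ^(-(2k-3)) = C δ`; `|V_l P_l| ≤ C δ` if `k = 2l+1`.  And
`∫_δ^a V_0' m → 0` by hypothesis (`V_0' = P_0/r^N` is bounded near `0`).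
So `∫_0^a r^N V_0 ≤ 0`, and `V_0 ≥ 0` is continuous: `V_0 = 0` on `(0,a)`. -/
def EN : Prop := ∀ (k : ℕ) (V P : ℕ → ℝ → ℝ) (m : ℝ → ℝ), Chain k V P m → ∀ a : ℝ, 0 < a →
  (∀ j, j + 1 < k → V j a = 0 ∧ P j a = 0) → (∀ r, 0 < r → r < a → 0 ≤ V 0 r) →
  (∫ t in (0 : ℝ)..a, P 0 t / t ^ (2 * k - 2) * m t = 0) →
  ∀ r, 0 < r → r < a → V 0 r = 0

/-! ### Counting zeros -/

/-- Rolle's theorem for several zeros, and with a zero at infinity.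
PROOF.  `exists_hasDerivAt_eq_zero` between consecutive zeros.  If `f → 0` at infinity there is also
a zero of `f'` beyond the last zero `x_q` (`exists_hasDerivAt_eq_zero'`-type argument: `f` is `0`
at `x_q` and tends to `0`; if `f` vanishes identically on `(x_q,∞)` any point works, otherwise
`|f|` attains a positive maximum on `(x_q,∞)`). -/
def ROLLE : Prop := ∀ (f f' : ℝ → ℝ) (b : ℝ), ContinuousOn f (Ici b) →
  (∀ r, b < r → HasDerivAt f (f' r) r) → ∀ (q : ℕ) (x : Fin (q + 1) → ℝ), StrictMono x →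
  (∀ i, b ≤ x i ∧ f (x i) = 0) →
  (∃ z : Fin q → ℝ, ∀ i, x i.castSucc < z i ∧ z i < x i.succ ∧ f' (z i) = 0) ∧
  (Tendsto f atTop (𝓝 0) → ZZ f' b (q + 1))

/-- First step: double zeros at the interior contact points.
PROOF.  Let `F = {r_1 < … < r_N}` (`Finset.orderEmbOfFin`), `r_0 = b`.  `h_0 = V_0/K` vanishes at
`r_0,…,r_N`; by `ROLLE` there are `z_i ∈ (r_{i-1},r_i)` with `W_0(z_i) = 0`, `i = 1,…,N` (`WDER`).  Also
`W_0(b) = 0`, and for `1 ≤ i ≤ N-1` the point `r_i` is a local minimum of `V_0` (`V_0 ≥ 0` on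
`(b,r_N]`), so `P_0(r_i) = 0` and `W_0(r_i) = 0`.  So `W_0` has the `2N` zeros
`r_0 < z_1 < r_1 < … < r_{N-1} < z_N` in `[b,∞)` and tends to `0` at infinity: by `ROLLE`
`W_0' = -r^(2k-2) K V_1` has `2N` zeros in `(b,∞)`.  If `N = 0`: `W_0(b) = 0` and the zero at infinity
give one zero. -/
def CNT1 : Prop := ∀ (k : ℕ) (V P : ℕ → ℝ → ℝ) (m : ℝ → ℝ), Chain k V P m → ∀ b : ℝ, 0 < b →
  V 0 b = 0 → P 0 b = 0 → ∀ F : Finset ℝ, (∀ r ∈ F, b < r ∧ V 0 r = 0) →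
  (∀ R ∈ F, ∀ r, b < r → r ≤ R → 0 ≤ V 0 r) → ZZ (V 1) b (max (2 * F.card) 1)

/-- Middle steps.  PROOF.  `h_j = V_j/K` vanishes at `b` and at the `q` zeros; by `ROLLE` `W_j` has `q`
zeros in `(b,∞)`, and `W_j(b) = 0`, `W_j → 0` at infinity (`WDER`); so by `ROLLE`
`W_j' = -r^(2k-2) K V_{j+1}` has `q+1` zeros in `(b,∞)`. -/
def CNTS : Prop := ∀ (k : ℕ) (V P : ℕ → ℝ → ℝ) (m : ℝ → ℝ), Chain k V P m → ∀ b : ℝ, 0 < b →
  ∀ j, j + 1 < k → V j b = 0 → P j b = 0 → ∀ q : ℕ, ZZ (V j) b q → ZZ (V (j + 1)) b (q + 1)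

/-- Last step.
PROOF.  Let `Z` be the set of the `q+1` zeros `b < x_1 < … < x_q` of `V_{k-1}` in `[b,∞)`.  For `z ∈ Z`
let `i(z) = #{r ∈ F | r < z} ∈ {0,…,N}`, `N = F.card`.  If `p₁ < p₂ < p₃` in `Z` have the same `i`, no
element of `F` lies in `[p₁,p₃)`, so `m` is constant on `(p₁,p₃)` and `W_{k-1}` is strictly increasing
there (`WDER`); but Rolle for `h_{k-1}` gives zeros of `W_{k-1}` in `(p₁,p₂)` and in `(p₂,p₃)`,
contradiction.  So at most two elements of `Z` for each `i < N`.  If `p₁ < p₂` in `Z` have `i = N`,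
then `m` is constant on `(p₁,∞)`, `W_{k-1}` is strictly increasing on `(p₁,∞)` and tends to `0`, so it
is negative there; but Rolle gives a zero in `(p₁,p₂)`, contradiction.  So `q + 1 ≤ 2N + 1`. -/
def CNTT : Prop := ∀ (k : ℕ) (V P : ℕ → ℝ → ℝ) (m : ℝ → ℝ), Chain k V P m → ∀ b : ℝ, 0 < b →
  V (k - 1) b = 0 → ∀ F : Finset ℝ,
  (∀ x y : ℝ, b < x → x ≤ y → (∀ r ∈ F, ¬ (x ≤ r ∧ r < y)) → m x = m y) →
  ∀ q : ℕ, ZZ (V (k - 1)) b q → q ≤ 2 * F.card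

/-- PROOF.  `CNT1`, then `CNTS` for `j = 1,…,k-2`: `V_{k-1}` has `max (2N) 1 + (k-2)` zeros in `(b,∞)`,
so `max (2N) 1 + (k-2) ≤ 2N` by `CNTT`. -/
def CNT : Prop := ∀ (k : ℕ) (V P : ℕ → ℝ → ℝ) (m : ℝ → ℝ), Chain k V P m → ∀ b : ℝ, 0 < b →
  (∀ j < k, V j b = 0) → (∀ j, j + 1 < k → P j b = 0) → ∀ F : Finset ℝ,
  (∀ r ∈ F, b < r ∧ V 0 r = 0) → (∀ R ∈ F, ∀ r, b < r → r ≤ R → 0 ≤ V 0 r) →
  (∀ x y : ℝ, b < x → x ≤ y → (∀ r ∈ F, ¬ (x ≤ r ∧ r < y)) → m x = m y) →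
  F.Nonempty ∧ k = 2

/-! ### The structure of the support -/

/-- PROOF.  Let `S` be infinite and `A` the set of its accumulation points: nonempty (compactness),
closed, contained in `S`; `b = sSup A ∈ A`.  For `t > b`, `S ∩ [t,R]` is compact without accumulation
points, so finite.
Case `b > 0`.  `V_0` vanishes on `S ∩ (0,∞)`, so its zeros accumulate at `b` from the right or from
the left: by `ACC` `V_j(b) = 0` (`j < k`), `P_j(b) = 0` (`j+1 < k`).  By `EN` (the integral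
hypothesis holds since `V_0(b) = 0`) `V_0 = 0` on `(0,b)`; so by `ACC` at each point `V_j = 0` on
`(0,b]` for `j < k`, and by `der` `∫_{r₁}^{r₂} P_{k-1}/t^(2k-2) = 0` for `0 < r₁ < r₂ ≤ b`, so
`P_{k-1} = 0` a.e. on `(0,b)`, and everywhere on `(0,b]` since it is left continuous; `top`:
`m(r) = ∫_0^r u^(2k-2) du = r^(2k-1)/(2k-1)` for `0 < r ≤ b`.  This is strictly increasing, so `S`
meets `[x,y)` for all `0 < x < y < b`; `S` closed gives `[0,b] ⊆ S`.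
If `b = R`, `m` is constant on `(b,∞)` and `CNT` with `F = ∅` is a contradiction; so `b < R`.
If `k ≥ 3` and `S ∩ (b,t)` were empty for some `t > b`, then `S ∩ (b,R]` would be finite and `CNT` with
`F = S ∩ (b,R]` is a contradiction.  So the zeros of `V_0` accumulate at `b` from the right and
`ATOM` gives the limit `∫_0^b u^(2k-2)(V_{k-1}+1) = b^(2k-1)/(2k-1)`.
Case `b = 0`: `0 ∈ A ⊆ S`, `S ∩ (0,t)` is nonempty since `0 ∈ A` and `S ⊆ [0,R]`; limit: `Chain.zero`. -/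
def STR : Prop := ∀ (k : ℕ) (V P : ℕ → ℝ → ℝ) (m : ℝ → ℝ), Chain k V P m →
  ∀ (S : Set ℝ) (R : ℝ), 0 < R → IsClosed S → S ⊆ Icc 0 R → R ∈ S →
  (∀ r ∈ S, 0 < r → V 0 r = 0) → (∀ r, 0 < r → r ≤ R → 0 ≤ V 0 r) →
  (∀ x y : ℝ, 0 < x → x ≤ y → S ∩ Ico x y = ∅ → m x = m y) →
  (∀ a : ℝ, 0 < a → V 0 a = 0 → ∫ t in (0 : ℝ)..a, P 0 t / t ^ (2 * k - 2) * m t = 0) →
  S.Finite ∨ ∃ b : ℝ, 0 ≤ b ∧ b < R ∧ Icc 0 b ⊆ S ∧ (∀ t, b < t → (S ∩ Icc t R).Finite) ∧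
    (∀ r, 0 < r → r ≤ b → m r = r ^ (2 * k - 1) / (2 * k - 1)) ∧
    (3 ≤ k → (∀ t, b < t → (S ∩ Ioo b t).Nonempty) ∧
      Tendsto m (𝓝[>] b) (𝓝 (b ^ (2 * k - 1) / (2 * k - 1))))

/-- The radii of a discrete set accumulating at its lower end.
PROOF.  For `s ∈ S`, `s > b`, the set `S ∩ (b,s)` is nonempty and has a maximum (it meets some
`[t,R]`, `t > b`, in a nonempty finite set); start with `R` and iterate.  The limit `l` of the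
decreasing sequence is `b`: if `l > b` then `S ∩ [l,R]` would be infinite.  Every `s ∈ S`, `s > b`, is
some `r_i`: take the least `i` with `r_i ≤ s`; if `r_i < s` then `i ≥ 1`, `s < r_{i-1}` and `s ≤ r_i`
by maximality. -/
def SEQ : Prop := ∀ (S : Set ℝ) (b R : ℝ), b < R → R ∈ S → S ⊆ Iic R →
  (∀ t, b < t → (S ∩ Icc t R).Finite) → (∀ t, b < t → (S ∩ Ioo b t).Nonempty) →
  ∃ r : ℕ → ℝ, StrictAnti r ∧ r 0 = R ∧ (∀ i, b < r i) ∧ Tendsto r atTop (𝓝 b) ∧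
    S ∩ Ioi b = range r

/-! ### Measures -/

/-- The radii of the support of a rotation invariant measure.
PROOF.  The support is closed and rotation invariant (reflections act transitively on spheres);
`τ(univ \ support) = 0`; a shell `{x ≤ |z| < y}` which does not meet the support is null; an open
shell `{x < |z| < y}` which meets the support has positive mass. -/
def RSET : Prop := ∀ (n : ℕ), 1 ≤ n → ∀ (τ : Measure (En n)) (R : ℝ), 0 < R → IsFiniteMeasure τ →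
  Rot τ → τ (closedBall 0 R)ᶜ = 0 → ∀ e : En n, ‖e‖ = 1 → ∀ S : Set ℝ,
  S = {r : ℝ | 0 ≤ r ∧ r • e ∈ τ.support} →
  IsClosed S ∧ S ⊆ Icc 0 R ∧ τ.support = {x : En n | ‖x‖ ∈ S} ∧
  (∀ x y : ℝ, x ≤ y → S ∩ Ico x y = ∅ → τ (ball 0 x) = τ (ball 0 y)) ∧
  (∀ x y : ℝ, 0 ≤ x → x < y → (S ∩ Ioo x y).Nonempty → τ (ball 0 x) < τ (ball 0 y))

/-- The integral hypothesis of `EN`.
PROOF.  `V_0(r) = potential τ (r e) - 1` and `P_0/t^(n-1)` is its derivative (`CHN`: `VV τ e 0 r₂ -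
VV τ e 0 r₁ = ∫ PP k τ e 0 t / t^(n-1)`), bounded: `|PP k τ e 0 t| ≤ C t^(n-1)` for small `t`, because
the potential is Lipschitz with constant `τ(univ)`, so `|PP k τ e 0 t / t^(n-1)| ≤ τ(univ)` at every
`t > 0` (`PP k τ e 0` is continuous, `k ≥ 2`).  `mm τ t = (n-1)! ∫ 1_{|y| < t} dτ(y)`, so by Fubini the
integral is `(n-1)! ∫ (∫_{(0,a), t > |y|} P_0/t^(n-1) dt) dτ(y)`, and for `τ`-a.e. `y` (`y ≠ 0`,
`y` in the support, so `V_0(|y|) = 0`): the inner integral is `V_0(a) - V_0(|y|) = 0` if `|y| < a`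
and `0` if `|y| ≥ a`. -/
def FUB : Prop := ∀ n k : ℕ, 2 ≤ k → n + 1 = 2 * k → ∀ τ : Measure (En n), IsFiniteMeasure τ →
  Rot τ → τ {0} = 0 → (∀ x ∈ τ.support, potential τ x = 1) → ∀ e : En n, ‖e‖ = 1 → ∀ a : ℝ,
  0 < a → VV τ e 0 a = 0 → ∫ t in (0 : ℝ)..a, PP k τ e 0 t / t ^ (2 * k - 2) * mm τ t = 0

/-- A rotation invariant finite measure is determined by the masses of balls.
PROOF (as `Pool.Agent.Helper27.MM.sphu`).  `potential μ` and `potential ν` are radial, bounded and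
continuous, and the image measures of `μ` and `ν` under `x ↦ ‖x‖` agree (they agree on the sets
`Iio t`, a π-system; the total masses agree as limits `t → ∞`).  So
`∫ potential μ dμ = ∫ potential μ dν` and `∫ potential ν dμ = ∫ potential ν dν`, hence
`bil μ μ - bil μ ν - bil ν μ + bil ν ν = 0` (`bil μ ν = bil ν μ`) and
`Pool.Agent.Helper67.MaxMeas.eq_of_bil_sub_eq_zero` gives `μ = ν`. -/
def ROTD : Prop := ∀ (n : ℕ), 1 ≤ n → ∀ μ ν : Measure (En n), IsFiniteMeasure μ →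
  IsFiniteMeasure ν → Rot μ → Rot ν → (∀ t : ℝ, 0 < t → μ (ball 0 t) = ν (ball 0 t)) → μ = ν

/-- `w = c Leb|_{B_b} + ∑ m_i σ_{r_i}`, `R = r_0 > r_1 > … → b`, and the support is the solid ball
`B_b` together with the infinitely many spheres of radii `r_i`. -/
def BallAndSpheres (n : ℕ) (R b c : ℝ) (w : Measure (En n)) : Prop :=
  ∃ r m : ℕ → ℝ, StrictAnti r ∧ r 0 = R ∧ Tendsto r atTop (𝓝 b) ∧ (∀ i, 0 < m i) ∧
    w = ENNReal.ofReal c • (volume : Measure (En n)).restrict (closedBall 0 b) +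
      Measure.sum (fun i => ENNReal.ofReal (m i) • sphUnif n (r i)) ∧
    w.support = closedBall 0 b ∪ ⋃ i, sphere 0 (r i)

/-- The representation of the measure.
PROOF.  `m_i = τ.real (sphere 0 (r i))`, positive since the radius `r_i` is isolated in `S` (the open
shell between two radii around it has positive mass, and carries only this sphere).  `τ` and the
right hand side `ρ` are finite rotation invariant measures (`fSPH2`, `fSPH1` for `σ`).  They agree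
on balls: for `0 < t ≤ b`, `τ(ball 0 t) = t^n/n! = c vol(ball 0 t)`, `c = 1/(n! vol(ball 0 1))`
(from `mm τ t = t^n/n`, `(n-1)! n = n!`); `τ(closedBall 0 b) = lim_{t ↓ b} τ(ball 0 t) = b^n/n!` (the
limit hypothesis); for `t > b`: `τ(ball 0 t) = τ(closedBall 0 b) + ∑_{r_i < t} τ(sphere 0 (r i))` since
`τ` is carried by `{|x| ∈ S}` and `S ∩ (b,∞) = range r`.  So `τ = ρ` by `ROTD`.  The support is
`{|x| ∈ S}`, `S = [0,b] ∪ range r`. -/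
def REP : Prop := ∀ (n : ℕ), 2 ≤ n → ∀ (τ : Measure (En n)) (S : Set ℝ) (R b : ℝ) (r : ℕ → ℝ),
  IsFiniteMeasure τ → Rot τ → 0 ≤ b → b < R → Icc 0 b ⊆ S → S ⊆ Icc 0 R → IsClosed S →
  τ.support = {x : En n | ‖x‖ ∈ S} →
  StrictAnti r → r 0 = R → (∀ i, b < r i) → Tendsto r atTop (𝓝 b) → S ∩ Ioi b = range r →
  (∀ t : ℝ, 0 < t → t ≤ b → mm τ t = t ^ n / n) →
  Tendsto (mm τ) (𝓝[>] b) (𝓝 (b ^ n / n)) →
  BallAndSpheres n R b ((n.factorial : ℝ) * (volume : Measure (En n)).real (ball 0 1))⁻¹ τ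

end Pool.Agent.Helper70.OB
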