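import Pool.Agent.Helper70.OB.Goals

/-!
Project OB, one more goal: the form of the measure when the support is a finite union of spheres.
-/

open MeasureTheory Set Metric Filter
open scoped ENNReal Topology
open Pool.Agent.Results.MP_91ee6f_gt

namespace Pool.Agent.Helper70.OB

/-- `w = ∑_{i ≤ N} m_i σ_{r_i}`, `R = r_0 > … > r_N > 0`, and the support is the union of these
spheres. -/
def FiniteSpheres (n : ℕ) (R : ℝ) (w : Measure (En n)) : Prop :=
  ∃ (N : ℕ) (r m : Fin (N + 1) → ℝ), StrictAnti r ∧ r 0 = R ∧ (∀ i, 0 < r i) ∧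
    (∀ i, 0 < m i) ∧ w = ∑ i, ENNReal.ofReal (m i) • sphUnif n (r i) ∧
    w.support = ⋃ i, sphere 0 (r i)

/-- The representation in the finite case.
PROOF.  `0 ∉ S`: otherwise (`S` finite) the point `0` would be isolated in the support, so
`τ {0} > 0`.  Let `r_0 > … > r_N` be the elements of `S` (`Finset.orderEmbOfFin` composed with
`Fin.rev`), `r_0 = R`, and `m_i = τ.real (sphere 0 (r i)) > 0` (isolated radius: a small open shell
around the sphere meets the support and carries only this sphere).  `τ` and `∑ m_i σ_{r_i}` are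
finite rotation invariant measures (`fSPH1`, `fSPH2`) with the same masses of balls: both give
`∑_{r_i < t} m_i` (`τ` is carried by `{|x| ∈ S}`).  So they agree by `ROTD`. -/
def REPF : Prop := ∀ (n : ℕ), 2 ≤ n → ∀ (τ : Measure (En n)) (S : Set ℝ) (R : ℝ),
  IsFiniteMeasure τ → Rot τ → 0 < R → R ∈ S → S ⊆ Icc 0 R → S.Finite →
  τ.support = {x : En n | ‖x‖ ∈ S} → τ {0} = 0 → FiniteSpheres n R τ

end Pool.Agent.Helper70.OB
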