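import Pool.Agent.Helper70.OB.GoalsP

/-!
Project EV (MP_91ee6f_gt, even dimensions `n = 2k ≥ 4`): for `R > L(n)` the support of the maximising
measure of the ball `B_R` is not a finite union of spheres, closed shells and closed balls about `0`.

Idea.  `V_j = c_j g_j - 1`, `P_j = c_j pe_j`, `N = n-1 = 2k-1`: `V_j' = P_j/r^N`, `P_j' = r^N (V_j - V_{j+1})`
for `j ≤ k-1`, and `(1-Δ) V_k < 0` in the gaps of the support.  `K` is a positive decaying solution of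
`(1-Δ) K = 0` in dimension `n`, `L = r^N K'`.  If beyond some `b` the support consists of finitely
many spheres and `V_0 = 0` to the left of `b`, counting zeros (Rolle) gives a contradiction.

Each `def NAME : Prop` is a goal; its docstring contains the complete proof.
-/

open MeasureTheory Set Metric Filter
open scoped ENNReal Topology
open Pool.Agent.Results.MP_91ee6f_gt
open Pool.Agent.Helper70.MM (om om_zero om_one om_rel om_pos om_hasDerivAt om_le om_measurable)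
open Pool.Agent.Helper70.MB (KT)

namespace Pool.Agent.Helper70.OB

/-- The radial system in even dimension `2k`. -/
structure ECh (k : ℕ) (K L : ℝ → ℝ) (V P : ℕ → ℝ → ℝ) : Prop where
  two_le : 2 ≤ k
  kpos : ∀ r : ℝ, 0 < r → 0 < K r
  kder : ∀ r : ℝ, 0 < r → HasDerivAt K (L r / r ^ (2 * k - 1)) r
  lder : ∀ r : ℝ, 0 < r → HasDerivAt L (r ^ (2 * k - 1) * K r) r
  vder : ∀ j < k, ∀ r : ℝ, 0 < r → HasDerivAt (V j) (P j r / r ^ (2 * k - 1)) r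
  pcont : ∀ j < k, ContinuousOn (P j) (Ioi 0)
  pder : ∀ j, j + 1 < k → ∀ r : ℝ, 0 < r →
    HasDerivAt (P j) (r ^ (2 * k - 1) * (V j r - V (j + 1) r)) r
  wlim : ∀ j < k, Tendsto (fun r => K r * P j r - L r * V j r) atTop (𝓝 0)

/-- The top equations beyond `b`, off the finite set `F` of radii of spheres; `d` is the flux of `V_k`. -/
structure ETop (k : ℕ) (K L : ℝ → ℝ) (V P : ℕ → ℝ → ℝ) (d D : ℝ → ℝ) (b : ℝ) (F : Finset ℝ) :
    Prop where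
  pos : 0 < b
  ne : F.Nonempty
  mem : ∀ r ∈ F, b < r ∧ V 0 r = 0
  ge : ∀ R ∈ F, ∀ r, b < r → r ≤ R → 0 ≤ V 0 r
  vb : ∀ j < k, V j b = 0 ∧ P j b = 0
  ptop : ∀ r : ℝ, b < r → r ∉ F →
    HasDerivAt (P (k - 1)) (r ^ (2 * k - 1) * (V (k - 1) r - V k r)) r
  vk : ∀ r : ℝ, b < r → r ∉ F → HasDerivAt (V k) (d r / r ^ (2 * k - 1)) r
  dk : ∀ r : ℝ, b < r → r ∉ F → HasDerivAt d (D r) r
  dpos : ∀ r : ℝ, b < r → r ∉ F → r ^ (2 * k - 1) * V k r < D r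
  wlim : Tendsto (fun r => K r * d r - L r * V k r) atTop (𝓝 0)
  near : ∀ R ∈ F, ∃ δ > 0, ∀ r : ℝ, |r - R| < δ → r ≠ R → 0 < V k r
  start : ∀ η > 0, ∃ δ > 0, ∀ r : ℝ, b < r → r < b + δ → V k r ≤ η

/-- A positive decaying radial solution of `(1-Δ) K = 0` in dimension `2k`.
PROOF.  `K_m(r) = ∫_ℝ ω_m(√(r²+z²)) dz` (`r > 0`), `K = K_k`, `L = -r^(2k) K_{k+1}`.  Differentiation under
the integral (`ρ = √(r²+z²)`, `∂_r ω_m(ρ) = -ρ ω_{m+1}(ρ) r/ρ`): `K_m' = -r K_{m+1}`.  By `om_rel`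
`ρ² ω_{m+2} = ω_m + (2m+1) ω_{m+1}`, and `∫ z² ω_{m+2}(ρ) dz = ∫ ω_{m+1}(ρ) dz` (partial integration,
`∂_z ω_{m+1}(ρ) = -z ω_{m+2}(ρ)`), so `r² K_{m+2} = K_m + 2m K_{m+1}`.  Hence `L' = -2k r^(2k-1) K_{k+1} +
r^(2k+1) K_{k+2} = r^(2k-1) K_k`.  Decay: `ω_m(ρ) ≤ C e^{-ρ}` for `ρ ≥ 1` (as the last part of `OMI`), and
`ρ ≥ (2/3)(r+|z|)`.  (Another possible choice: `K(r) = ∫_1^∞ (s²-1)^((2k-3)/2) e^{-rs} ds`.) -/
def KEV : Prop := ∀ k : ℕ, 1 ≤ k → ∃ K L : ℝ → ℝ,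
  (∀ r : ℝ, 0 < r → 0 < K r ∧ HasDerivAt K (L r / r ^ (2 * k - 1)) r ∧
    HasDerivAt L (r ^ (2 * k - 1) * K r) r) ∧
  ∃ C : ℝ, ∀ r : ℝ, 1 ≤ r → |K r| ≤ C * Real.exp (-(r / 2)) ∧ |L r| ≤ C * Real.exp (-(r / 2))

/-- First step: double zeros at the interior contact points.
PROOF.  Put `W = K P_0 - L V_0`: `(V_0/K)' = W/(r^(2k-1) K²)` and `W' = -r^(2k-1) K V_1` on `(0,∞)`
(`kder`, `lder`, `vder`, `pder` with `j = 0`).  The rest is word for word the proof of `CNT1`: with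
`F = {r_1 < … < r_N}`, `r_0 = b`, `W` has zeros `z_i ∈ (r_{i-1},r_i)` (`ROLLE` for `V_0/K`), `W(b) = 0`, and
`W(r_i) = 0` for `1 ≤ i < N` (local minimum of `V_0`, so `P_0(r_i) = 0`); these are `2N` zeros in `[b,∞)`
and `W → 0` at infinity, so by `ROLLE` `V_1` has `2N` zeros in `(b,∞)`. -/
def EC1 : Prop := ∀ (k : ℕ) (K L : ℝ → ℝ) (V P : ℕ → ℝ → ℝ), ECh k K L V P → ∀ b : ℝ, 0 < b →
  V 0 b = 0 → P 0 b = 0 → ∀ F : Finset ℝ, F.Nonempty → (∀ r ∈ F, b < r ∧ V 0 r = 0) →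
  (∀ R ∈ F, ∀ r, b < r → r ≤ R → 0 ≤ V 0 r) → ZZ (V 1) b (2 * F.card)

/-- Middle steps.  PROOF.  As `CNTS`, with `W = K P_j - L V_j`: `(V_j/K)' = W/(r^(2k-1) K²)`,
`W' = -r^(2k-1) K V_{j+1}`, `W(b) = 0`, `W → 0`. -/
def ECS : Prop := ∀ (k : ℕ) (K L : ℝ → ℝ) (V P : ℕ → ℝ → ℝ), ECh k K L V P → ∀ b : ℝ, 0 < b →
  ∀ j, j + 1 < k → V j b = 0 → P j b = 0 → ∀ q : ℕ, ZZ (V j) b q → ZZ (V (j + 1)) b (q + 1)

/-- Zeros of `V_k` off `F`.
PROOF.  `W = K d - L V_k`: on each interval of `(b,∞) ∖ F`, `(V_k/K)' = W/(r^(2k-1) K²)` and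
`W' = K (D - r^(2k-1) V_k) > 0`.  For `z` in `Z` (the finite set of given zeros) let
`i(z) = #{r ∈ F | r < z} ≤ N = F.card`; zeros with the same `i` lie in the same interval.  Three zeros
`p₁ < p₂ < p₃` in one interval give two zeros of the strictly increasing `W`: impossible.  If
`p₁ < p₂` have `i = 0`: `W(z) = 0` for some `z ∈ (p₁,p₂)`, so `W < 0` on `(b,z)`, `V_k/K` is strictly
decreasing on `(b,z)` and zero at `p₁`, so `V_k/K ≥ c > 0` on `(b, (b+p₁)/2)`; as `K` is bounded below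
near `b` this contradicts `start`.  If `p₁ < p₂` have `i = N`: `W(z) = 0` for some `z ∈ (p₁,p₂)`, so
`W > 0` is increasing on `(z,∞)`: contradiction to `wlim`.  As `N ≥ 1`, `q ≤ 1 + 2(N-1) + 1 = 2N`. -/
def EZK : Prop := ∀ (k : ℕ) (K L : ℝ → ℝ) (V P : ℕ → ℝ → ℝ), ECh k K L V P →
  ∀ (d D : ℝ → ℝ) (b : ℝ) (F : Finset ℝ), ETop k K L V P d D b F →
  ∀ (q : ℕ) (x : Fin q → ℝ), StrictMono x → (∀ i, b < x i ∧ x i ∉ F ∧ V k (x i) = 0) →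
    q ≤ 2 * F.card

/-- Last step.
PROOF.  `W = K P_{k-1} - L V_{k-1}` is continuous on `(0,∞)`, `(V_{k-1}/K)' = W/(r^(2k-1) K²)` on
`(0,∞)`; so the `q+1` zeros `b < x_1 < … < x_q` of `V_{k-1}/K` give zeros `z_i ∈ (x_{i-1},x_i)` of `W`,
`i = 1,…,q`.  Also `W(b) = 0` and `W → 0` at infinity.  In each of the `q+1` intervals
`(b,z_1), (z_1,z_2), …, (z_q,∞)` there is a point `y ∉ F` with `V_k(y) = 0`: if `W` vanishes identically
there, take any point not in `F`, where `W' = 0`; otherwise take a point `y` where `|W|` is maximal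
(positive): it is a local extremum of `W`; `y ∉ F` because near a point of `F` one has `V_k > 0`
(`near`), so `W' = -r^(2k-1) K V_k < 0` on both sides and `W` is strictly decreasing through that point;
so `W'(y) = 0`, `V_k(y) = 0` (`ptop`: `W' = -r^(2k-1) K V_k` off `F`).  By `EZK`, `q + 1 ≤ 2 F.card`. -/
def ECT : Prop := ∀ (k : ℕ) (K L : ℝ → ℝ) (V P : ℕ → ℝ → ℝ), ECh k K L V P →
  ∀ (d D : ℝ → ℝ) (b : ℝ) (F : Finset ℝ), ETop k K L V P d D b F →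
  ∀ q : ℕ, ZZ (V (k - 1)) b q → q + 1 ≤ 2 * F.card

/-- PROOF.  `EC1`, then `ECS` for `j = 1,…,k-2`: `V_{k-1}` has `2N + (k-2)` zeros in `(b,∞)`; `ECT`:
`2N + k - 1 ≤ 2N`, contradiction to `k ≥ 2`. -/
def ECNT : Prop := ∀ (k : ℕ) (K L : ℝ → ℝ) (V P : ℕ → ℝ → ℝ), ECh k K L V P →
  ∀ (d D : ℝ → ℝ) (b : ℝ) (F : Finset ℝ), ¬ ETop k K L V P d D b F

/-- `P_j` for a measure in even dimension -/
noncomputable def PE {n : ℕ} (τ : Measure (En n)) (e : En n) (j : ℕ) (r : ℝ) : ℝ :=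
  cc n j * pe τ e j r

/-- The measure gives the radial system.
PROOF.  `n - 1 = 2k-1`.  `CHG` for `j ≤ k-1` (`2(j+1) ≤ n`): `g_j' = pe_j/r^(n-1)`, `pe_j` continuous; for
`j+1 < k`, `g_j` and `g_{j+1}` are continuous on `(0,∞)`, so `pe_j' = r^(n-1)(g_j - (n-1-2j) g_{j+1})`;
multiply by `cc n j`, `cc n (j+1) = cc n j (n-1-2j)`.  `wlim`: `g_j` is bounded on `[1,∞)` (continuous,
and `≤ ω_j(1) τ(univ)` for `r ≥ R+1`), so `|pe_j(r)| ≤ C (1 + r^n)` (`pe_j' = r^(n-1)(…)` with bounded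
bracket for `j+1 < k`; for `j = k-1` bound `∫_0^r u^(n-1) g_k ≤ C + C r^n` using `g_k ≤ ω_k(1) τ(univ)`
for `u ≥ R+1`), and `K, L` decay exponentially (`KEV`). -/
def EMK : Prop := ∀ n k : ℕ, 2 ≤ k → n = 2 * k → ∀ (τ : Measure (En n)) (R : ℝ),
  IsFiniteMeasure τ → Rot τ → τ (closedBall 0 R)ᶜ = 0 → ∀ e : En n, ‖e‖ = 1 →
  ∀ K L : ℝ → ℝ, (∀ r : ℝ, 0 < r → 0 < K r ∧ HasDerivAt K (L r / r ^ (2 * k - 1)) r ∧
    HasDerivAt L (r ^ (2 * k - 1) * K r) r) →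
  (∃ C : ℝ, ∀ r : ℝ, 1 ≤ r → |K r| ≤ C * Real.exp (-(r / 2)) ∧
    |L r| ≤ C * Real.exp (-(r / 2))) →
  ECh k K L (VV τ e) (PE τ e)

/-- The value of `g_k` to the right of a solid shell of the support.
PROOF.  Let `n = 2k`, `V_0 = 0` on `(a,b)`.  By `CHG` (`j = 0,…,k-1`) successively `P_j = 0`, `V_{j+1} = 0` on
`(a,b)` (`V_0' = P_0/r^N`; `P_j' = r^N (V_j - V_{j+1})` for `j+1 < k`; and for `j = k-1`:
`pe_{k-1}(r₂) - pe_{k-1}(r₁) = ∫ u^N (g_{k-1} - (n-1-2(k-1)) g_k)`), so for a.e. `u ∈ (a,b)` the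
potential `g_k(u)` is finite (integrable, `CHG`) and `c_k g_k(u) = 1`.  For `b < r < c`, `r` near `b`, put
`r* = b²/r ∈ (a,b)`.  If `‖y‖ ≤ b` then `dist (r e) y ≥ dist (r* e) y`, because
`|re-y|² - (r²/b²)|r*e-y|² = (b²-‖y‖²)(r²/b² - 1) ≥ 0`; so `ω_k(dist (r e) y) ≤ ω_k(dist (r* e) y)`.  If
`‖y‖ ≥ c` both distances are `≥ (c-b)/2` and differ by at most `r - r*`; `ω_k` is Lipschitz on
`[(c-b)/2,∞)`.  As `τ{b < ‖y‖ < c} = 0`: `g_k(r) ≤ g_k(r*) + C (r - r*)` for all `r` near `b` for which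
`g_k(r*)` is finite, so `c_k g_k(r) ≤ 1 + C' (r - r*)` for a.e. `r` near `b`, `r > b`; `g_k` is continuous
on `(b,c)` (`GAPO`), so for all. -/
def EINV : Prop := ∀ n k : ℕ, 1 ≤ k → n = 2 * k → ∀ τ : Measure (En n), IsFiniteMeasure τ →
  Rot τ → ∀ e : En n, ‖e‖ = 1 → ∀ a b c : ℝ, 0 ≤ a → a < b → b < c →
  (∀ r, a < r → r < b → VV τ e 0 r = 0) → τ {y | b < ‖y‖ ∧ ‖y‖ < c} = 0 →
  (∀ j < k, VV τ e j b = 0 ∧ PE τ e j b = 0) ∧
  ∀ η > 0, ∃ δ > 0, ∀ r : ℝ, b < r → r < b + δ → VV τ e k r ≤ η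

/-- Blow-up of `g_k` at a sphere of positive mass.
PROOF.  For a unit vector `e` and `0 < δ ≤ 1` let `A = {θ | |θ - e| ≤ δ}` on the unit sphere.  The ball
of radius `δ/8` about `(1-δ/4) e` is contained in `{t θ | θ ∈ A, 1-δ/2 < t < 1}`, whose volume is
`σ_1(A) ω (1-(1-δ/2)^n) ≤ σ_1(A) ω n δ/2`; so `σ_1(A) ≥ c δ^(n-1)` (compare Pool/Agent/Helper15/MM/Sph4.lean).
The restriction of `τ` to `sphere 0 R'` is rotation invariant, so it is `τ(sphere 0 R') σ_{R'}`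
(`MM.fSPHU`); and `ω_k(s) ≥ c s^(-(2k-1)) = c s^(-(n-1))` for `0 < s ≤ 1` (`om_rel`, induction).  So for
`0 < δ₀ < 1` and `|r - R'| ≤ δ₀`: `g_k(r) ≥ ∫_{sphere} ω_k(dist (r e) y) dτ ≥ c' ∑_{i : δ₀ ≤ 2^(-i) ≤ 1}
2^(i(n-1)) τ{y ∈ sphere : 2^(-i-M) < |R'e - y| ≤ 2^(-i)} ≥ c'' #{i}`, where `M` is a fixed number with
`τ{… annulus …} ≥ c 2^(-i(n-1))` (lower bound at radius `2^(-i)` minus the UPPER cap bound
`σ_1(A) ≤ 2^n δ^(n-1)` at radius `2^(-i-M)`, see `MM.INV`'s docstring); or: by the layer cake formula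
`∫ ω_k dσ ≥ ∫_1^{c δ₀^(-(n-1))} σ{ω_k > t} dt ≥ ∫ c/t dt`, which needs only the lower bound.  This tends
to infinity as `δ₀ → 0`. -/
def BLOW : Prop := ∀ n k : ℕ, 1 ≤ k → n = 2 * k → ∀ τ : Measure (En n), IsFiniteMeasure τ →
  Rot τ → ∀ e : En n, ‖e‖ = 1 → ∀ R' : ℝ, 0 < R' → 0 < τ (sphere 0 R') → ∀ M : ℝ,
  ∃ δ > 0, ∀ r : ℝ, |r - R'| < δ → r ≠ R' → Integrable (fun y => om k (dist (r • e) y)) τ →
    M ≤ gj τ e k r

/-- `A` is a finite union of closed shells `{a ≤ |x| ≤ b}` about `0`; spheres (`a = b`) and closed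
balls (`a ≤ 0`) are included. -/
def IsFinUnionShells {n : ℕ} (A : Set (En n)) : Prop :=
  ∃ F : Set (ℝ × ℝ), F.Finite ∧ A = ⋃ p ∈ F, {x : En n | p.1 ≤ ‖x‖ ∧ ‖x‖ ≤ p.2}

/-- PROOF.  `S = {r ≥ 0 | r e ∈ supp τ}` (`RSET`) is the union of the finitely many intervals
`[p.1,p.2] ∩ [0,∞)`, `S ⊆ [0,R]`, `R ∈ S`, and by `EDGE` `S` does not meet `(R-δ,R)`.  Let `b` be the largest
right end point of the nondegenerate intervals (there is one: `[0,ρ] ⊆ S` is infinite); `0 < b < R`,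
`S ⊇ [a,b]` for some `0 ≤ a < b`, and `S ∩ (b,∞)` is finite; `F` the corresponding finset, `R ∈ F`.
`V_0 = 0` on `S` (`KT`), `≥ 0` on `(0,R]`.  Let `c = min F`; `τ{b < ‖y‖ < c} = 0`; `EINV` gives `vb` and
`start`.  For `r > b`, `r ∉ F`, there is an open interval around `r` which does not meet `S`, so `GAPO`
with `j = k` and `j = k-1` applies on it: `g_k' = d/r^N`, `d' = r^N (g_k + g_{k+1})`
(`n-1-2k = -1`; define `d(r) = r^N g_k'(r)`, `D = d'`), multiply by `c_k > 0`: `c_k d' = r^N (V_k + 1 + c_k g_{k+1})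
> r^N V_k`; and `pe_{k-1}' = r^N (g_{k-1} - (n-1-2(k-1)) g_k)` (the functions `g_{k-1}, g_k` are continuous
there), which is `ptop`.  `wlim`: for `r ≥ R+2`, `g_k` and `g_k' = -∫ ω_{k+1}(d)⟪re-y,e⟫ dτ` are bounded,
`K, L` decay exponentially (`KEV`).  `near`: the radii in `F` are isolated in `S`, so
`τ(sphere 0 R') > 0`; `BLOW` with `M = 2/c_k` (`g_k` finite in gaps, `GAPO`).  So `ETop` holds with
`EMK`, contradiction to `ECNT`. -/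
def ESTR : Prop := ∀ n k : ℕ, 2 ≤ k → n = 2 * k → ∀ (τ : Measure (En n)) (R ρ : ℝ), 0 < R →
  0 < ρ → Rot τ → KT (closedBall 0 R) τ → sphere 0 R ⊆ τ.support →
  closedBall 0 ρ ⊆ τ.support → ¬ IsFinUnionShells τ.support

end Pool.Agent.Helper70.OB
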