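import Pool.Agent.Helper70.OB.Goals2

/-!
Project PL (MP_91ee6f_gt, the plane): for `n = 2` and every `R > R_c` the support of the maximising
measure of the disc `B_R` is EXACTLY a smaller closed disc together with the boundary circle:
`supp w = closedBall 0 b ∪ sphere 0 R`, `0 < b < R`.

Idea.  `g_0 = potential τ (r e)`, `g_1 = ∫ e^{-d}/d dτ`, `(1-Δ) g_0 = (n-1) g_1`, and in a gap of the
support `(1-Δ) g_1 = (n-3) g_2 < 0` for `n = 2`: so `g_1` is subharmonic in gaps.  At both ends of a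
gap `g_0 = 1` and `g_0' = 0`, hence `g_1 ≤ 1` near the ends, so `g_1 ≤ 1 ≤ g_0` in the gap, so `g_0` is
subharmonic in the gap, contradiction.

The file also contains the radial system in general dimension (all equations without atoms), used
for even `n ≥ 4` later.  Each `def NAME : Prop` is a goal; its docstring contains the complete
proof.
-/

open MeasureTheory Set Metric Filter
open scoped ENNReal Topology
open Pool.Agent.Results.MP_91ee6f_gt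
open Pool.Agent.Helper70.MM (om om_zero om_one om_rel om_pos om_hasDerivAt om_le om_measurable)
open Pool.Agent.Helper70.MB (KT)

namespace Pool.Agent.Helper70.OB

/-- the flux without atom term -/
noncomputable def pe {n : ℕ} (τ : Measure (En n)) (e : En n) (j : ℕ) (r : ℝ) : ℝ :=
  ∫ u in (0 : ℝ)..r, u ^ (n - 1) *
    (gj τ e j u - ((n : ℝ) - 1 - 2 * j) * gj τ e (j + 1) u)

/-- Integrals of `s^(n-1) ω_j(s)` in general dimension.
PROOF.  As `OMI` (see its docstring): `0 < ω_j(s) ≤ C_j s^(-(2j-1)) e^{-s/2}` for `j ≥ 1`, `s > 0`, and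
`2j-1 ≤ n-1`, so `s^(n-1) ω_j` is bounded by `C (1+s^(n-1)) e^{-s/2}`.  If `2(j+1) ≤ n`:
`(s^n ω_{j+1})' = n s^(n-1) ω_{j+1} - s^(n+1) ω_{j+2}` and `s^(n+1) ω_{j+2} = s^(n-1) ω_j + (2j+1) s^(n-1)
ω_{j+1}` (`om_rel`), `s^n ω_{j+1} → 0` at `0` (`2j+1 < n`) and at `∞`; integrate. -/
def OMG : Prop := ∀ n j : ℕ, 1 ≤ n → 2 * j ≤ n →
  IntegrableOn (fun s : ℝ => s ^ (n - 1) * om j s) (Ioi 0) ∧
  (2 * (j + 1) ≤ n → AA n j = ((n : ℝ) - 1 - 2 * j) * AA n (j + 1))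

/-- The mass of the kernel `ε² ω_{j+2}(√(s²+ε²))`.  PROOF.  As `MASS` (see its docstring, first case):
the integral equals `∫ s^(n-1) ω_j(ρ) - (n-1-2j) ∫ s^(n-1) ω_{j+1}(ρ) ≤ A_j`, `ρ = √(s²+ε²)`
(`n-1-2j ≥ 0`), and tends to `A_j - (n-1-2j) A_{j+1} = 0` (`OMG`). -/
def MASG : Prop := ∀ n j : ℕ, 1 ≤ n → 2 * (j + 1) ≤ n →
  (∀ ε : ℝ, 0 < ε →
    IntegrableOn (fun s : ℝ => s ^ (n - 1) * (ε ^ 2 * om (j + 2) (Real.sqrt (s ^ 2 + ε ^ 2))))
      (Ioi 0) ∧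
    ∫ s in Ioi (0 : ℝ), s ^ (n - 1) * (ε ^ 2 * om (j + 2) (Real.sqrt (s ^ 2 + ε ^ 2))) ≤
      AA n j) ∧
  Tendsto (fun ε : ℝ => ∫ s in Ioi (0 : ℝ),
    s ^ (n - 1) * (ε ^ 2 * om (j + 2) (Real.sqrt (s ^ 2 + ε ^ 2)))) (𝓝[>] 0) (𝓝 0)

/-- The radial equations without atom terms, in general dimension.
PROOF.  As `CHN` (see its docstring, the case `j+1 < k`; here `2(j+1) ≤ n` takes the place of
`j+1 < k`): steps (0)-(2) give that `u^(n-1) g_j`, `u^(n-1) g_{j+1}` are integrable near `0` and that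
`∫⁻ ω_j(dist (r e) y) dτ < ∞` for all `r > 0`; in step (3) the third term tends to `0` (`MASG`), for
EVERY `t > 0`.  (`g_{j+1}(u)` may be infinite for some `u`, where the Bochner integral `gj` is `0`;
this is a null set of `u`.) -/
def CHG : Prop := ∀ n j : ℕ, 2 ≤ n → 2 * (j + 1) ≤ n → ∀ τ : Measure (En n), IsFiniteMeasure τ →
  Rot τ → ∀ e : En n, ‖e‖ = 1 →
    (∀ r : ℝ, 0 < r → Integrable (fun y => om j (dist (r • e) y)) τ) ∧
    (∀ r : ℝ, 0 < r → IntervalIntegrable (fun u => u ^ (n - 1) * gj τ e j u) volume 0 r) ∧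
    (∀ r : ℝ, 0 < r → IntervalIntegrable (fun u => u ^ (n - 1) * gj τ e (j + 1) u) volume 0 r) ∧
    (∀ᵐ u : ℝ, 0 < u → Integrable (fun y => om (j + 1) (dist (u • e) y)) τ) ∧
    ContinuousOn (pe τ e j) (Ioi 0) ∧
    ∀ r : ℝ, 0 < r → HasDerivAt (gj τ e j) (pe τ e j r / r ^ (n - 1)) r

/-- The radial equations in a gap of the support, all `j`.
PROOF.  For `|x| = r ∈ (a,b)` the distance of `x` to almost every `y` is at least
`δ = min (r-a) (b-r) > 0`.  As in `REG` with `ε = 0`, using `MM.fUD` (`ν = τ`) at `x = r e` along the unit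
vectors of an orthonormal basis containing `e`: along `e` one gets `g'(r) =
-∫ ω_{j+1}(d) ⟪re-y,e⟫ dτ`, `g''(r) = ∫ (ω_{j+2}(d) ⟪re-y,e⟫² - ω_{j+1}(d)) dτ`; along `v ⟂ e` the second
derivative at `t = 0` of `F(r e + t v) = g(√(r²+t²))` is `g'(r)/r` (`F` is radial by `Rot`).  The sum is
`g'' + (n-1) g'/r = ∫ (ω_{j+2}(d) d² - n ω_{j+1}(d)) dτ = g_j - (n-1-2j) g_{j+1}` (`om_rel`).  Put
`d(r) = r^(n-1) g'(r)`.  Last claim: for `0 < r < b/2` the distances are `≥ b/2`, `g'` is bounded. -/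
def GAPO : Prop := ∀ (n : ℕ), 2 ≤ n → ∀ τ : Measure (En n), IsFiniteMeasure τ → Rot τ →
  ∀ e : En n, ‖e‖ = 1 → ∀ a b : ℝ, 0 ≤ a → a < b → τ {y | a < ‖y‖ ∧ ‖y‖ < b} = 0 → ∀ j : ℕ,
    (∀ r ∈ Ioo a b, Integrable (fun y => om j (dist (r • e) y)) τ) ∧
    ∃ d : ℝ → ℝ, (∀ r ∈ Ioo a b, HasDerivAt (gj τ e j) (d r / r ^ (n - 1)) r ∧
      HasDerivAt d (r ^ (n - 1) *
        (gj τ e j r - ((n : ℝ) - 1 - 2 * j) * gj τ e (j + 1) r)) r) ∧
      (a = 0 → τ (ball 0 b) = 0 → Tendsto d (𝓝[>] 0) (𝓝 0))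

/-- There is no gap (first alternative) and no hole (second alternative).
PROOF.  `d` is strictly increasing on `(a,b)`, so `φ` is quasi-convex: if `φ t < φ t₀` and
`φ t' < φ t₀` with `t < t₀ < t'`, the mean value theorem gives `φ' > 0` at a point of `(t,t₀)` and
`φ' < 0` at a point of `(t₀,t')`, contradiction.
Claim: `φ ≤ 1` on `(a,b)`.  Suppose `φ t₀ = 1 + η`, `η > 0`.  Then `φ ≥ 1 + η` on `[t₀,b)` or on `(a,t₀]`.
In the first case, `V < η` on some `[t₁,b)` (`V → 0`), so `P' = r^N (V + 1 - φ) < 0` there and `P → 0` at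
`b`, so `P > 0` on `[t₁,b)`, `V' > 0` and `V → 0`, so `V < 0` there, contradiction.  The second case is
symmetric for a gap (`P' < 0` near `a`, `P → 0` at `a`, so `P < 0`, `V` decreasing from the limit `0`, so
`V < 0`).  For a hole (`a = 0`, `d → 0` at `0`): `d > 0` on `(0,b)`, `φ` is increasing, so we are in the
first case.
Hence `P' = r^N (V + 1 - φ) ≥ 0`, `P` is nondecreasing with limit `0` at both ends: `P = 0` on `(a,b)`,
so `P' = 0`, `V` is constant `= 0` (limit at `b`), so `φ = 1` on `(a,b)`, so `φ' = 0`, `d = 0`, `D = 0`,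
contradiction. -/
def PLG : Prop := ∀ (N : ℕ) (a b : ℝ) (V P φ d D : ℝ → ℝ), 0 ≤ a → a < b →
  (∀ r ∈ Ioo a b, HasDerivAt V (P r / r ^ N) r ∧
    HasDerivAt P (r ^ N * (V r + 1 - φ r)) r ∧ HasDerivAt φ (d r / r ^ N) r ∧
    HasDerivAt d (D r) r ∧ 0 < D r ∧ 0 ≤ V r) →
  Tendsto V (𝓝[<] b) (𝓝 0) → Tendsto P (𝓝[<] b) (𝓝 0) →
  ((Tendsto V (𝓝[>] a) (𝓝 0) ∧ Tendsto P (𝓝[>] a) (𝓝 0)) ∨
    (a = 0 ∧ Tendsto P (𝓝[>] 0) (𝓝 0) ∧ Tendsto d (𝓝[>] 0) (𝓝 0))) → False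

/-- The boundary sphere is isolated in the support.
PROOF.  `τ {R e} = 0` (`Rot`, `n ≥ 2`: infinitely many points of the sphere have equal mass), so
`u(r) = potential τ (r e)` is differentiable at `R` with derivative
`-∫ e^{-d} ⟪Re - y, e⟫/d dτ(y)`, `d = dist (R e) y` (as `Pool.Agent.Helper60.MM.pder`:
`hasDerivAt_integral_of_dominated_loc_of_lip`).  For a.e. `y`: `‖y‖ ≤ R`, `y ≠ R e`, so
`⟪Re - y, e⟫ = R - ⟪y,e⟫ > 0`; so the derivative is negative (`τ ≠ 0`).  As `u(R) = 1`, `u > 1` on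
`(R-δ,R)` for some `δ > 0`. -/
def EDGE : Prop := ∀ (n : ℕ), 2 ≤ n → ∀ (τ : Measure (En n)) (R : ℝ), 0 < R →
  IsFiniteMeasure τ → Rot τ → τ ≠ 0 → τ (closedBall 0 R)ᶜ = 0 → ∀ e : En n, ‖e‖ = 1 →
  potential τ (R • e) = 1 →
  ∃ δ : ℝ, 0 < δ ∧ δ < R ∧ ∀ r : ℝ, R - δ < r → r < R → 1 < potential τ (r • e)

/-- The support in the plane.
PROOF.  Let `S = {r ≥ 0 | r e ∈ supp τ}` (`RSET`: closed, `⊆ [0,R]`, `supp τ = {‖x‖ ∈ S}`), `R ∈ S`
(hypothesis), and `S' = S ∩ [0,R)`; by `EDGE` (`potential = 1` on the support) `S' ⊆ [0,R-δ]`, so `S'`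
is compact.  `supp τ` meets the open ball, so `S' ≠ ∅`; let `b = max S' < R`.  `0` is not an
isolated point of `S` (an isolated point of the support has positive mass, but `τ {0} = 0`); in
particular `b > 0`.  Suppose some `c ∈ [0,b]` is not in `S`.  `r₂ = min (S ∩ [c,b]) > c`; if
`S ∩ [0,c]` is nonempty let `r₁` be its maximum: `r₁ < c`, and `r₁ > 0` since `0` is not isolated.
With `V = potential τ (r e) - 1`, `P = pe τ e 0`, `φ = gj τ e 1`, `N = 1`: `CHG` (`j = 0`) gives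
`V' = P/r`, `V` and `P` continuous on `(0,∞)`; `V ≥ 0` on `(0,R]`, `V(r_i) = 0`, `0 < r_i < R`, so
`r_i` is a local minimum and `P(r_i) = 0`.  On the gap `(r₁,r₂)` (or hole `(0,r₂)`, `τ(ball 0 r₂) = 0`)
`GAPO` with `j = 0` gives (comparing the derivatives of `gj τ e 0`) `d = P`, so
`P' = r (V + 1 - φ)`, and with `j = 1` `(r φ')' = r (g_1 + g_2) > 0` (`n - 1 - 2 = -1`; `g_1, g_2 > 0` as
`τ ≠ 0`).  For the hole `P → 0` at `0` (last part of `GAPO`).  `PLG` is a contradiction.  So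
`[0,b] ⊆ S` and `S = [0,b] ∪ {R}`. -/
def PLS : Prop := ∀ (τ : Measure (En 2)) (R : ℝ), 0 < R → Rot τ →
  KT (closedBall 0 R) τ → τ {0} = 0 → sphere 0 R ⊆ τ.support →
  (τ.support ∩ ball 0 R).Nonempty →
  ∃ b : ℝ, 0 < b ∧ b < R ∧ τ.support = closedBall 0 b ∪ sphere 0 R

end Pool.Agent.Helper70.OB
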